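import Pool.Agent.TH181.Nag.Move

/-! The square class of two with the explicit bound eight. -/

namespace Pool.Agent.TH183.QN

open Pool.Agent.TH181.NagM

/-- mirror image followed by the move for the top vertex -/
theorem Mv.mA {μ ν μ' ν' a b : ℝ} (u v : ℤ) (hc : IsCoprime u v) (hu : 0 ≤ u) (h1 : 0 ≤ u * ν + v)
    (h2 : u * μ ≤ v) (hn : 0 < μ + ν) (ha : a = u * (u * ν + v))
    (hb : b * (μ + ν) = (v - u * μ) * (u * ν + v)) (h : Mv a b μ' ν') : Mv μ ν μ' ν' := by
  apply Mv.mirror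
  refine Mv.stepA u v hc hu h1 h2 (by linarith) ?_
  have e : (v - u * μ) * (u * ν + v) / (ν + μ) = b := by
    rw [div_eq_iff (by linarith), ← hb]; ring
  rw [← ha, e]
  exact h

/-- from the plane to `2 t ^ 2`, `t ≥ 8` -/
theorem Mv_two {t : ℕ} (ht : 8 ≤ t) : Mv 0 1 0 (2 * (t : ℝ) ^ 2) := by
  obtain ⟨r, hr, hr0⟩ : ∃ r : ℝ, r ^ 2 = 2 ∧ 0 < r :=
    ⟨√2, Real.sq_sqrt (by norm_num), Real.sqrt_pos.2 (by norm_num)⟩
  have hr1 : 1.4142 < r := by nlinarith
  have hr2 : r < 1.4143 := by nlinarith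
  have ht' : (8 : ℝ) ≤ t := by exact_mod_cast ht
  -- the weighted plane
  refine Mv.stepA 1 2 isCoprime_one_left (by norm_num) (by norm_num) (by norm_num) (by norm_num) ?_
  refine Mv.shear (-2) ?_
  have e0 : (((1 : ℤ) : ℝ) * (((1 : ℤ) : ℝ) * 0 + ((2 : ℤ) : ℝ)) + ((-2 : ℤ) : ℝ)) = 0 := by norm_num
  have e1 : ((((2 : ℤ) : ℝ) - ((1 : ℤ) : ℝ) * 1) * (((1 : ℤ) : ℝ) * 0 + ((2 : ℤ) : ℝ)) / (0 + 1) - ((-2 : ℤ) : ℝ)) =
      ((4 : ℕ) : ℝ) := by norm_num
  rw [e0, e1]
  refine Mv.lim (M := 4) (by norm_num) (ω := 3 + 2 * r) (by linarith) (by push_cast; linear_combination 4 * hr) ?_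
  have e2 : (1 / ((4 : ℕ) : ℝ)) = 1 / 4 := by norm_num
  have e3 : (((3 + 2 * r) ^ 2 - 1) / ((4 : ℕ) : ℝ)) = 4 + 3 * r := by
    push_cast
    rw [div_eq_iff (by norm_num)]
    linear_combination 4 * hr
  rw [e2, e3]
  -- step 1
  refine Mv.mA 1 1 isCoprime_one_left (by norm_num) (by push_cast; linarith) (by push_cast; linarith)
    (by linarith) (a := 5 + 3 * r) (b := 39 - 27 * r) (by push_cast; ring)
    (by push_cast; linear_combination (-81) * hr) ?_
  -- step 2
  refine Mv.mA 2 21 (by rw [Int.isCoprime_iff_gcd_eq_one]; norm_num) (by norm_num)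
    (by push_cast; linarith) (by push_cast; linarith)
    (by linarith) (a := 198 - 108 * r) (b := (99 - 54 * r) / 4) (by push_cast; ring)
    (by push_cast; ring) ?_
  -- step 3
  refine Mv.mA 1 63 isCoprime_one_left (by norm_num) (by push_cast; linarith) (by push_cast; linarith)
    (by linarith) (a := (351 - 54 * r) / 4) (b := 36 * r - 27) (by push_cast; ring)
    (by push_cast; linear_combination (-2916) * hr) ?_
  -- step 4
  refine Mv.mA 1 69 isCoprime_one_left (by norm_num) (by push_cast; linarith) (by push_cast; linarith)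
    (by linarith) (a := 42 + 36 * r) (b := 6 - 4 * r) (by push_cast; ring)
    (by push_cast; linear_combination (-576) * hr) ?_
  -- the right triangles
  have hq : 0 < 3 - 2 * r := by linarith
  have h5 : Mv (42 + 36 * r) (6 - 4 * r) 0 (48 + 32 * r) := by
    have h := Mv.toRT (μ := 42 + 36 * r) (ν := 6 - 4 * r) (by linarith)
    have e : 42 + 36 * r + (6 - 4 * r) = 48 + 32 * r := by ring
    rwa [e] at h
  have h6 : Rv (48 + 32 * r) ((3 - 2 * r) / 16) := by
    have h := Rv.inv (n := 48 + 32 * r) (by linarith)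
    have e : 1 / (48 + 32 * r) = (3 - 2 * r) / 16 := by
      rw [div_eq_div_iff (by linarith) (by norm_num)]
      linear_combination (64 : ℝ) * hr
    rwa [e] at h
  have h7 : Rv ((3 - 2 * r) / 16) 128 := by
    have h := Rv.move (n := (3 - 2 * r) / 16) (by positivity) 16 1 isCoprime_one_right (by norm_num)
    have e : (((16 : ℕ) : ℝ) * ((3 - 2 * r) / 16) + ((1 : ℕ) : ℝ)) ^ 2 / ((3 - 2 * r) / 16) = 128 := by
      rw [div_eq_iff (by positivity)]
      push_cast
      linear_combination (4 : ℝ) * hr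
    rwa [e] at h
  have h8 : Rv 128 (2 * (t : ℝ) ^ 2) := by
    have h := Rv.div (n := 128) (by norm_num) (16 * t) (by omega) (by push_cast; linarith)
    have e : ((16 * t : ℕ) : ℝ) ^ 2 / 128 = 2 * (t : ℝ) ^ 2 := by push_cast; ring
    rwa [e] at h
  exact h5.trans (h6.trans (h7.trans h8))

end Pool.Agent.TH183.QN
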