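import Pool.Agent.TH183.QN.Graph2
import Pool.Agent.TH183.QT.Finite
import Pool.Agent.TH15.NagEmpGeneric

/-! Emptiness for generic germs and minimal quasimonomial valuations. -/

namespace Pool.Agent.TH183.QN

open Finset Pool.Agent.TH176.Nag Pool.Agent.TH181.NagM Pool.Agent.TH183.QT

universe u

/-- emptiness for germs outside one hypersurface, over all fields of characteristic zero -/
theorem EmpW.generic {t B : ℝ} (ht : 1 ≤ t) {d : ℕ} (h : EmpW (fun _ : Unit => t) (fun _ => B) (TT d)) :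
    ∃ D : MvPolynomial ℕ ℚ, D ≠ 0 ∧ ∀ (L : Type u) [Field L] [CharZero L] (c : ℕ → L),
      MvPolynomial.aeval c D ≠ 0 → ∀ v : exps d → L,
        (∀ i j : ℕ, (i : ℝ) + t * j < B → ∑ m : exps d, v m * ent c m.1 i j = 0) → v = 0 := by
  classical
  obtain ⟨K, _, _, c0, hc0⟩ := h.germ ht
  obtain ⟨a, ha⟩ := Pool.Agent.TH15.Nag.exists_rows
    (R := {p : ℕ × ℕ // (p.1 : ℝ) + t * p.2 < B}) (σ := exps d)
    (fun p m => ent c0 m.1 p.1.1 p.1.2) (by
    intro v hv
    apply hc0 v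
    intro i j hij
    rw [← hv ⟨(i, j), hij⟩]
    exact Finset.sum_congr rfl fun m _ => mul_comm _ _)
  let D : MvPolynomial ℕ ℚ := (Matrix.of fun j m : exps d =>
    ent (fun k => (MvPolynomial.X k : MvPolynomial ℕ ℚ)) m.1 (a j).1.1 (a j).1.2).det
  have hD : ∀ {L : Type} [Field L] [CharZero L] (c : ℕ → L), MvPolynomial.aeval c D =
      (Matrix.of fun j m : exps d => ent c m.1 (a j).1.1 (a j).1.2).det := by
    intro L _ _ c
    rw [AlgHom.map_det]
    congr 1
    ext j m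
    show (MvPolynomial.aeval c : MvPolynomial ℕ ℚ →ₐ[ℚ] L) (ent _ _ _ _) = _
    have := map_ent ((MvPolynomial.aeval c : MvPolynomial ℕ ℚ →ₐ[ℚ] L) : MvPolynomial ℕ ℚ →+* L)
      (fun k => (MvPolynomial.X k : MvPolynomial ℕ ℚ)) m.1 (a j).1.1 (a j).1.2
    simp only [RingHom.coe_coe, MvPolynomial.aeval_X] at this
    exact this
  have hD' : ∀ {L : Type u} [Field L] [CharZero L] (c : ℕ → L), MvPolynomial.aeval c D =
      (Matrix.of fun j m : exps d => ent c m.1 (a j).1.1 (a j).1.2).det := by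
    intro L _ _ c
    rw [AlgHom.map_det]
    congr 1
    ext j m
    show (MvPolynomial.aeval c : MvPolynomial ℕ ℚ →ₐ[ℚ] L) (ent _ _ _ _) = _
    have := map_ent ((MvPolynomial.aeval c : MvPolynomial ℕ ℚ →ₐ[ℚ] L) : MvPolynomial ℕ ℚ →+* L)
      (fun k => (MvPolynomial.X k : MvPolynomial ℕ ℚ)) m.1 (a j).1.1 (a j).1.2
    simp only [RingHom.coe_coe, MvPolynomial.aeval_X] at this
    exact this
  refine ⟨D, ?_, ?_⟩
  · intro h0
    apply ha
    rw [← hD c0, h0, map_zero]
  · intro L _ _ c hc v hv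
    rw [hD' c] at hc
    apply Matrix.eq_zero_of_mulVec_eq_zero hc
    funext j
    rw [Pi.zero_apply, ← hv (a j).1.1 (a j).1.2 (a j).2]
    rw [Matrix.mulVec, dotProduct]
    exact Finset.sum_congr rfl fun m _ => mul_comm _ _

theorem empW_TT {t B : ℝ} (ht : 0 < t) (hM : Mv 0 1 0 t) {d : ℕ} (hd : (d : ℝ) * √t < B) :
    EmpW (fun _ : Unit => t) (fun _ => B) (TT d) := by
  have hs : 0 < √t := Real.sqrt_pos.2 ht
  have h := EmpW.of_Mv (ι := Unit) (tw := fun _ => t) (fun _ => ht.le) ht (by simp) hM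
  have hB : (d : ℝ) < B / √t := by rwa [lt_div_iff₀ hs]
  obtain ⟨E, hE1, hE2⟩ := exists_between hB
  have h1 := h (fun _ => B) E (lt_of_le_of_lt (Nat.cast_nonneg d) hE1) (by
    unfold sz
    simpa using hE2) 0
  refine h1.mono ?_
  rintro ⟨a, b⟩ ⟨ha, hb, hab⟩
  simp only at ha hb hab
  have ha' : (0 : ℝ) ≤ a := by exact_mod_cast ha
  have hab' : (a : ℝ) + b ≤ d := by exact_mod_cast hab
  refine ⟨hb, ?_, ?_⟩
  · simp only; linarith
  · simp only
    rw [zero_add, zero_add, Real.sqrt_one]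
    linarith

/-- reachable values are minimal, one degree and one bound -/
theorem degLE_of_Mv {t B : ℝ} (ht : 1 ≤ t) (hM : Mv 0 1 0 t) {d : ℕ} (hd : (d : ℝ) * √t < B) :
    DegLE d t B := by
  obtain ⟨D, hD, hD'⟩ := (empW_TT (by linarith) hM hd).generic ht
  refine ⟨MvPolynomial.map (algebraMap ℚ ℂ) D, ?_, ?_⟩
  · intro h0
    exact hD ((MvPolynomial.map_injective _ (algebraMap ℚ ℂ).injective) (by rw [h0, map_zero]))
  · intro c hc f hf hf0
    rw [MvPolynomial.eval_map, ← MvPolynomial.aeval_def] at hc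
    by_contra hcon
    apply hf0
    have h1 := hD' ℂ c hc (fun m => MvPolynomial.coeff m.1 f) (by
      intro i j hij
      rw [← coeff_expand_form c hf]
      by_contra hne
      exact hcon ⟨i, j, hne, hij.le⟩)
    ext m
    rw [MvPolynomial.coeff_zero]
    by_cases hm : m ∈ exps d
    · exact congrFun h1 ⟨m, hm⟩
    · apply hf.coeff_eq_zero
      rw [mem_exps] at hm
      exact hm

/-- reachable values are minimal -/
theorem nearMinimal_of_Mv {t : ℝ} (ht : 1 ≤ t) (hM : Mv 0 1 0 t) : NearMinimal 1 t := by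
  rw [nearMinimal_iff (by linarith)]
  intro d
  apply degLE_of_all_gt (by linarith)
  intro ε hε
  exact degLE_of_Mv ht hM (by linarith)

end Pool.Agent.TH183.QN
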