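import Pool.Agent.TH176.Nag.Region

/-! Laurent polynomials and quasimonomial valuations of germs at points of the torus.
`PS K` : power series in two variables `u`, `v`; a germ is a pair of units `X, Y` of `PS K`
(the image of the axis `v = 0` is the curve germ, `v` a transversal coordinate);
`Wt t c b` : all monomials `u ^ i v ^ j` of `b` have `i + t j ≥ c`. -/

namespace Pool.Agent.TH183.QN

open Finset Pool.Agent.TH176.Nag

/-- power series in two variables -/
abbrev PS (K : Type) [Field K] := MvPowerSeries (Fin 2) K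

section Wt
variable {K : Type} [Field K]

/-- all coefficients of weight less than `c` vanish (the weights of the variables are `1`, `t`) -/
def Wt (t c : ℝ) (b : PS K) : Prop :=
  ∀ e : Fin 2 →₀ ℕ, (e 0 : ℝ) + t * (e 1 : ℝ) < c → MvPowerSeries.coeff e b = 0

theorem Wt.zero (t c : ℝ) : Wt t c (0 : PS K) := fun e _ => by simp

theorem Wt.add {t c : ℝ} {a b : PS K} (ha : Wt t c a) (hb : Wt t c b) : Wt t c (a + b) :=
  fun e he => by rw [map_add, ha e he, hb e he, add_zero]

theorem Wt.smul {t c : ℝ} {b : PS K} (r : K) (hb : Wt t c b) : Wt t c (r • b) :=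
  fun e he => by rw [MvPowerSeries.coeff_smul, hb e he, mul_zero]

theorem Wt.sum {t c : ℝ} {κ : Type*} {s : Finset κ} {g : κ → PS K} (h : ∀ k ∈ s, Wt t c (g k)) :
    Wt t c (∑ k ∈ s, g k) := fun e he => by
  rw [map_sum]
  exact sum_eq_zero fun k hk => h k hk e he

theorem Wt.mul {t c c' : ℝ} {a b : PS K} (ha : Wt t c a) (hb : Wt t c' b) :
    Wt t (c + c') (a * b) := by
  classical
  intro e he
  rw [MvPowerSeries.coeff_mul]
  refine sum_eq_zero fun p hp => ?_
  have hp := HasAntidiagonal.mem_antidiagonal.1 hp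
  have h0 : (p.1 0 : ℝ) + p.2 0 = e 0 := by
    have := DFunLike.congr_fun hp 0
    exact_mod_cast this
  have h1 : (p.1 1 : ℝ) + p.2 1 = e 1 := by
    have := DFunLike.congr_fun hp 1
    exact_mod_cast this
  rcases lt_or_ge ((p.1 0 : ℝ) + t * (p.1 1 : ℝ)) c with h | h
  · rw [ha _ h, zero_mul]
  · rw [hb p.2, mul_zero]
    have e1 : (e 0 : ℝ) + t * e 1 = ((p.1 0 : ℝ) + t * p.1 1) + (p.2 0 + t * p.2 1) := by
      rw [← h0, ← h1]; ring
    linarith

theorem Wt.of_nonneg {t : ℝ} (ht : 0 ≤ t) {c : ℝ} (hc : c ≤ 0) (a : PS K) : Wt t c a := by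
  intro e he
  exfalso
  have h1 : (0 : ℝ) ≤ e 0 := Nat.cast_nonneg _
  have h2 : 0 ≤ t * (e 1 : ℝ) := mul_nonneg ht (Nat.cast_nonneg _)
  linarith

theorem Wt.mul_left {t : ℝ} (ht : 0 ≤ t) {c : ℝ} (a : PS K) {b : PS K} (hb : Wt t c b) :
    Wt t c (a * b) := by
  have := (Wt.of_nonneg ht le_rfl a).mul hb
  rwa [zero_add] at this

theorem Wt.mono {t c c' : ℝ} {b : PS K} (h : Wt t c b) (hc : c' ≤ c) : Wt t c' b :=
  fun e he => h e (lt_of_lt_of_le he hc)

theorem Wt.pow {t c : ℝ} {b : PS K} (ht : 0 ≤ t) (hb : Wt t c b) (k : ℕ) :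
    Wt t (k * c) (b ^ k) := by
  induction k with
  | zero => simp only [Nat.cast_zero, zero_mul, pow_zero]; exact Wt.of_nonneg ht le_rfl _
  | succ k ih =>
    rw [pow_succ]
    have := ih.mul hb
    refine this.mono ?_
    push_cast; linarith

end Wt

section ev
variable {K : Type} [Field K]

/-- evaluation of a Laurent polynomial at a pair of units -/
noncomputable def ev (X Y : (PS K)ˣ) (f : (ℤ × ℤ) →₀ K) : PS K :=
  f.sum fun m c => c • ((X ^ m.1 * Y ^ m.2 : (PS K)ˣ) : PS K)

/-- evaluation as an algebra homomorphism -/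
noncomputable def evA (X Y : (PS K)ˣ) : Lau K →ₐ[K] PS K :=
  AddMonoidAlgebra.lift K (PS K) (ℤ × ℤ)
    { toFun := fun m => ((X ^ (Multiplicative.toAdd m).1 * Y ^ (Multiplicative.toAdd m).2 : (PS K)ˣ) : PS K)
      map_one' := by simp
      map_mul' := fun a b => by
        rw [← Units.val_mul]
        congr 1
        simp only [toAdd_mul, Prod.fst_add, Prod.snd_add, zpow_add]
        exact mul_mul_mul_comm _ _ _ _ }

theorem evA_apply (X Y : (PS K)ˣ) (f : Lau K) : evA X Y f = ev X Y f.coeff := by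
  unfold evA ev
  rw [AddMonoidAlgebra.lift_apply]
  rfl

theorem evA_mon (X Y : (PS K)ˣ) (m : ℤ × ℤ) :
    evA X Y (mon K m) = ((X ^ m.1 * Y ^ m.2 : (PS K)ˣ) : PS K) := by
  unfold evA mon
  rw [AddMonoidAlgebra.lift_single, one_smul]
  rfl

theorem ev_mapDomain (X Y : (PS K)ˣ) (f : (ℤ × ℤ) →₀ K) (a b c d u v : ℤ) :
    ev X Y (f.mapDomain fun m => (a * m.1 + b * m.2 + u, c * m.1 + d * m.2 + v)) =
      ((X ^ u * Y ^ v : (PS K)ˣ) : PS K) * ev (X ^ a * Y ^ c) (X ^ b * Y ^ d) f := by
  unfold ev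
  rw [Finsupp.sum_mapDomain_index (by simp) (by intro m a b; rw [add_smul]), Finsupp.sum,
    Finsupp.sum, mul_sum]
  refine sum_congr rfl fun m _ => ?_
  rw [mul_smul_comm, ← Units.val_mul]
  congr 2
  simp only [mul_zpow, ← zpow_mul, zpow_add]
  generalize X ^ (a * m.1) = A
  generalize X ^ (b * m.2) = B
  generalize X ^ u = C
  generalize Y ^ (c * m.1) = D
  generalize Y ^ (d * m.2) = E
  generalize Y ^ v = F
  apply Units.ext
  push_cast
  ring

/-- the coefficient of `u` -/
noncomputable def dl (b : PS K) : K := MvPowerSeries.coeff (Finsupp.single 0 1) b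

/-- the constant coefficient -/
noncomputable abbrev cc (b : PS K) : K := MvPowerSeries.constantCoeff b

theorem dl_mul (a b : PS K) : dl (a * b) = cc a * dl b + dl a * cc b := by
  classical
  unfold dl
  rw [MvPowerSeries.coeff_mul, Finsupp.antidiagonal_single]
  simp [Finset.Nat.antidiagonal_succ]

theorem dl_add (a b : PS K) : dl (a + b) = dl a + dl b := by unfold dl; rw [map_add]

theorem dl_one : dl (1 : PS K) = 0 := by
  classical
  unfold dl
  rw [MvPowerSeries.coeff_one, if_neg (by simp)]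

end ev

end Pool.Agent.TH183.QN
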