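import Pool.Agent.TH183.QN.Root

/-! The degeneration from the weighted plane to the charts for quasimonomial valuations. -/

namespace Pool.Agent.TH183.QN

open Finset Pool.Agent.TH176.Nag

section dl
variable {K : Type} [Field K]

theorem cc_mul (a b : PS K) : cc (a * b) = cc a * cc b := by unfold cc; rw [map_mul]

theorem dl_mul_zero {a b : PS K} (ha : dl a = 0) (hb : dl b = 0) : dl (a * b) = 0 := by
  rw [dl_mul, ha, hb]; ring

theorem dl_pow_zero {a : PS K} (ha : dl a = 0) (n : ℕ) : dl (a ^ n) = 0 := by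
  induction n with
  | zero => rw [pow_zero, dl_one]
  | succ n ih => rw [pow_succ]; exact dl_mul_zero ih ha

theorem dl_div {a b : PS K} (h : dl (a * b) = 0) (ha : dl a = 0) (hc : cc a ≠ 0) : dl b = 0 := by
  rw [dl_mul, ha, zero_mul, add_zero] at h
  exact (mul_eq_zero.1 h).resolve_left hc

theorem dl_one_add_pow {a : PS K} (ha : dl a = 0) (n : ℕ) : dl (1 + a ^ n) = 0 := by
  rw [dl_add, dl_one, dl_pow_zero ha, add_zero]

/-- a power series with nonzero constant coefficient as a unit -/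
noncomputable def uo (g : PS K) (h : cc g ≠ 0) : (PS K)ˣ :=
  (show IsUnit g by
    rw [MvPowerSeries.isUnit_iff_constantCoeff, isUnit_iff_ne_zero]; exact h).unit

theorem uo_val (g : PS K) (h : cc g ≠ 0) : ((uo g h : (PS K)ˣ) : PS K) = g := rfl

/-- the quadruple of consecutive variables for two units -/
noncomputable def zP (N : ℕ) (A B : (PS K)ˣ) : PS K × PS K × PS K × PS K :=
  ((((B⁻¹ : (PS K)ˣ) : PS K)) * (1 + (A : PS K) ^ N), A, B,
    (((A⁻¹ : (PS K)ˣ) : PS K)) * (1 + (B : PS K) ^ N))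

theorem zP_rel (N : ℕ) (A B : (PS K)ˣ) : Rel N (zP N A B) := by
  unfold Pool.Agent.TH176.Nag.Rel zP
  constructor
  · simp only
    rw [mul_right_comm, ← Units.val_mul, inv_mul_cancel, Units.val_one, one_mul]
  · simp only
    rw [← mul_assoc, ← Units.val_mul, mul_inv_cancel, Units.val_one, one_mul]

theorem evA_zL (N : ℕ) (A B : (PS K)ˣ) :
    ((evA A B (zL K N).1, evA A B (zL K N).2.1, evA A B (zL K N).2.2.1,
      evA A B (zL K N).2.2.2) : PS K × PS K × PS K × PS K) = zP N A B := by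
  unfold zL zP
  simp only [map_mul, map_add, map_one, evA_mon]
  simp only [zpow_zero, zpow_neg_one, one_mul, zpow_natCast, mul_one, zpow_one,
    Units.val_pow_eq_pow_val]

theorem cc_inv (B : (PS K)ˣ) : cc ((B⁻¹ : (PS K)ˣ) : PS K) = (cc (B : PS K))⁻¹ := by
  apply eq_inv_of_mul_eq_one_left
  rw [← cc_mul, ← Units.val_mul, inv_mul_cancel, Units.val_one]
  unfold cc
  rw [map_one]

theorem cc_zP (N : ℕ) (A B : (PS K)ˣ) :
    ((cc (zP N A B).1, cc (zP N A B).2.1, cc (zP N A B).2.2.1, cc (zP N A B).2.2.2) : K × K × K × K) =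
      zK N (cc (A : PS K)) (cc (B : PS K)) := by
  unfold zP zK
  refine Prod.ext ?_ (Prod.ext rfl (Prod.ext rfl ?_))
  · simp only
    rw [cc_mul, cc_inv]
    unfold cc
    rw [map_add, map_one, map_pow, mul_comm, div_eq_mul_inv]
  · simp only
    rw [cc_mul, cc_inv]
    unfold cc
    rw [map_add, map_one, map_pow, mul_comm, div_eq_mul_inv]

theorem cc_iter (N : ℕ) (A B : (PS K)ˣ) (t : ℕ) :
    ((cc ((stp N)^[t] (zP N A B)).1, cc ((stp N)^[t] (zP N A B)).2.1,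
      cc ((stp N)^[t] (zP N A B)).2.2.1, cc ((stp N)^[t] (zP N A B)).2.2.2) : K × K × K × K) =
      (stp N)^[t] (zK N (cc (A : PS K)) (cc (B : PS K))) := by
  rw [← cc_zP]
  exact (map_iter (MvPowerSeries.constantCoeff : PS K →+* K) N t (zP N A B)).symm

theorem cc_s0 (N : ℕ) (A B : (PS K)ˣ) (t : ℕ) :
    cc (s0 N t (zP N A B)) = s0 N t (zK N (cc (A : PS K)) (cc (B : PS K))) := by
  rw [← cc_zP]
  exact (map_s0 (MvPowerSeries.constantCoeff : PS K →+* K) N t (zP N A B)).symm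

theorem cc_s1 (N : ℕ) (A B : (PS K)ˣ) (t : ℕ) :
    cc (s1 N t (zP N A B)) = s1 N t (zK N (cc (A : PS K)) (cc (B : PS K))) := by
  rw [← cc_zP]
  exact (map_s1 (MvPowerSeries.constantCoeff : PS K →+* K) N t (zP N A B)).symm

theorem cc_s2 (N : ℕ) (A B : (PS K)ˣ) (t : ℕ) :
    cc (s2 N t (zP N A B)) = s2 N t (zK N (cc (A : PS K)) (cc (B : PS K))) := by
  rw [← cc_zP]
  exact (map_s2 (MvPowerSeries.constantCoeff : PS K →+* K) N t (zP N A B)).symm

/-- going up the chain of charts -/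
theorem dl_up {N : ℕ} (A B : (PS K)ˣ) (t : ℕ)
    (hc : ∀ l < t, cc ((stp N)^[l] (zP N A B)).2.1 ≠ 0) (hN : 1 ≤ N)
    (h0 : dl ((stp N)^[t] (zP N A B)).1 = 0) (h1 : dl ((stp N)^[t] (zP N A B)).2.1 = 0)
    (h2 : dl ((stp N)^[t] (zP N A B)).2.2.1 = 0) (h3 : dl ((stp N)^[t] (zP N A B)).2.2.2 = 0) :
    dl (A : PS K) = 0 ∧ dl (B : PS K) = 0 := by
  induction t with
  | zero => exact ⟨h1, h2⟩
  | succ t ih =>
    rw [Function.iterate_succ_apply'] at h0 h1 h2 h3
    have e1 : dl ((stp N)^[t] (zP N A B)).1 = 0 := h1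
    have e2 : dl ((stp N)^[t] (zP N A B)).2.1 = 0 := h2
    have e3 : dl ((stp N)^[t] (zP N A B)).2.2.1 = 0 := h3
    refine ih (fun l hl => hc l (by omega)) e1 e2 e3 ?_
    have hr := ((zP_rel N A B).iter hN t).2
    refine dl_div (a := ((stp N)^[t] (zP N A B)).2.1) ?_ e2 (hc t (by omega))
    rw [hr]
    exact dl_one_add_pow e3 N

theorem dl_s012 [CharZero K] {N : ℕ} (hN : 2 ≤ N) (A B : (PS K)ˣ) (t : ℕ)
    (h0 : cc (s0 N t (zP N A B)) ≠ 0) (h1 : cc (s1 N t (zP N A B)) ≠ 0)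
    (h2 : cc (s2 N t (zP N A B)) ≠ 0)
    (hc : ∀ l < t, cc ((stp N)^[l] (zP N A B)).2.1 ≠ 0)
    (hx : ld (uo _ h1 * (uo _ h0)⁻¹) = 0) (hy : ld (uo _ h2 * (uo _ h0 ^ (N - 2))⁻¹) = 0) :
    dl (A : PS K) = 0 ∧ dl (B : PS K) = 0 := by
  rw [ld_mul, ld_inv] at hx
  rw [ld_mul, ld_inv, ld_pow] at hy
  have hrel := (zP_rel N A B).s012 (by omega) t
  have hld := congrArg dl hrel
  have hcc := congrArg cc hrel
  set U0 := uo _ h0 with hU0
  set U1 := uo _ h1 with hU1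
  set U2 := uo _ h2 with hU2
  have v0 : s0 N t (zP N A B) = (U0 : PS K) := rfl
  have v1 : s1 N t (zP N A B) = (U1 : PS K) := rfl
  have v2 : s2 N t (zP N A B) = (U2 : PS K) := rfl
  have hld' : dl ((U0 : PS K) * (U1 : PS K) * (U2 : PS K)) = dl (1 + (U0 : PS K) ^ N + (U1 : PS K) ^ N) := by
    rw [← v0, ← v1, ← v2]; exact hld
  have hcc' : cc ((U0 : PS K) * (U1 : PS K) * (U2 : PS K)) = cc (1 + (U0 : PS K) ^ N + (U1 : PS K) ^ N) := by
    rw [← v0, ← v1, ← v2]; exact hcc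
  have dlu : ∀ U : (PS K)ˣ, dl (U : PS K) = cc (U : PS K) * ld U := by
    intro U
    unfold ld
    rw [mul_div_cancel₀ _ (cc_unit_ne_zero U)]
  have a1 : dl ((U0 : PS K) * (U1 : PS K) * (U2 : PS K)) = cc ((U0 : PS K) * (U1 : PS K) * (U2 : PS K)) * (ld U0 + ld U1 + ld U2) := by
    have := dlu (U0 * U1 * U2)
    rw [ld_mul, ld_mul] at this
    simpa using this
  have a2 : dl ((U0 : PS K) ^ N) = cc ((U0 : PS K) ^ N) * (N * ld U0) := by
    have := dlu (U0 ^ N)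
    rw [ld_pow] at this
    simpa using this
  have a3 : dl ((U1 : PS K) ^ N) = cc ((U1 : PS K) ^ N) * (N * ld U1) := by
    have := dlu (U1 ^ N)
    rw [ld_pow] at this
    simpa using this
  have a4 : cc (1 + (U0 : PS K) ^ N + (U1 : PS K) ^ N) =
      1 + cc ((U0 : PS K) ^ N) + cc ((U1 : PS K) ^ N) := by
    unfold cc
    rw [map_add, map_add, map_one]
  rw [dl_add, dl_add, dl_one, a1, a2, a3, hcc', a4] at hld'
  have b1 : ld U1 = ld U0 := by linear_combination hx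
  have b2 : ld U2 = ((N - 2 : ℕ) : K) * ld U0 := by linear_combination hy
  have b3 : ((N - 2 : ℕ) : K) = (N : K) - 2 := by push_cast [Nat.cast_sub hN]; rfl
  have hl0 : (N : K) * ld U0 = 0 := by
    rw [b1, b2, b3] at hld'
    linear_combination hld'
  have hNK : (N : K) ≠ 0 := by
    have : N ≠ 0 := by omega
    exact_mod_cast this
  have hl0' : ld U0 = 0 := (mul_eq_zero.1 hl0).resolve_left hNK
  have hl1' : ld U1 = 0 := by rw [b1, hl0']
  have hd0 : dl ((stp N)^[t] (zP N A B)).2.1 = 0 := by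
    have : dl (U0 : PS K) = 0 := by rw [dlu, hl0', mul_zero]
    exact this
  have hd1 : dl ((stp N)^[t] (zP N A B)).2.2.1 = 0 := by
    have : dl (U1 : PS K) = 0 := by rw [dlu, hl1', mul_zero]
    exact this
  obtain ⟨hr1, hr2⟩ := (zP_rel N A B).iter (by omega) t
  refine dl_up A B t hc (by omega) ?_ hd0 hd1 ?_
  · refine dl_div (a := ((stp N)^[t] (zP N A B)).2.2.1) ?_ hd1 h1
    rw [mul_comm, hr1]
    exact dl_one_add_pow hd0 N
  · refine dl_div (a := ((stp N)^[t] (zP N A B)).2.1) ?_ hd0 h0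
    rw [hr2]
    exact dl_one_add_pow hd1 N

/-- the pullback of a polynomial of the chart -/
theorem evA_pb {N t e : ℕ} (A B : (PS K)ˣ) (h0 : cc (s0 N t (zP N A B)) ≠ 0)
    (h1 : cc (s1 N t (zP N A B)) ≠ 0) (h2 : cc (s2 N t (zP N A B)) ≠ 0) {f : (ℤ × ℤ) →₀ K}
    (hsup : ∀ m ∈ f.support, 0 ≤ m.1 ∧ 0 ≤ m.2 ∧
      m.1 + ((N - 2 : ℕ) : ℤ) * m.2 ≤ (((N - 2) * e : ℕ) : ℤ)) :
    evA A B (pb N t e f) = ((uo _ h0 ^ ((N - 2) * e) : (PS K)ˣ) : PS K) *
      ev (uo _ h1 * (uo _ h0)⁻¹) (uo _ h2 * (uo _ h0 ^ (N - 2))⁻¹) f := by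
  have ez := evA_zL N A B
  have m0 := map_s0 (evA A B : Lau K →+* PS K) N t (zL _ N)
  have m1 := map_s1 (evA A B : Lau K →+* PS K) N t (zL _ N)
  have m2 := map_s2 (evA A B : Lau K →+* PS K) N t (zL _ N)
  have m0' : evA A B (s0 N t (zL _ N)) = ((uo _ h0 : (PS K)ˣ) : PS K) := by
    rw [uo_val, ← ez]; exact m0.symm
  have m1' : evA A B (s1 N t (zL _ N)) = ((uo _ h1 : (PS K)ˣ) : PS K) := by
    rw [uo_val, ← ez]; exact m1.symm
  have m2' : evA A B (s2 N t (zL _ N)) = ((uo _ h2 : (PS K)ˣ) : PS K) := by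
    rw [uo_val, ← ez]; exact m2.symm
  generalize uo _ h0 = U0 at *
  generalize uo _ h1 = U1 at *
  generalize uo _ h2 = U2 at *
  unfold pb ev Finsupp.sum
  rw [map_sum, mul_sum]
  refine sum_congr rfl fun m hm => ?_
  rw [map_smul, map_mul, map_mul, map_pow, map_pow, map_pow, m0', m1', m2', mul_smul_comm]
  congr 1
  rw [← Units.val_pow_eq_pow_val, ← Units.val_pow_eq_pow_val, ← Units.val_pow_eq_pow_val,
    ← Units.val_mul, ← Units.val_mul, ← Units.val_mul]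
  congr 1
  obtain ⟨k1, k2, k3⟩ := hsup m hm
  obtain ⟨a, ha⟩ := Int.eq_ofNat_of_zero_le k1
  obtain ⟨b, hb⟩ := Int.eq_ofNat_of_zero_le k2
  have ha' : m.1.toNat = a := by omega
  have hb' : m.2.toNat = b := by omega
  rw [ha', hb']
  have k4 : a + (N - 2) * b ≤ (N - 2) * e := by
    rw [ha, hb] at k3
    exact_mod_cast k3
  have k5 : U0 ^ ((N - 2) * e) = U0 ^ ((N - 2) * e - a - (N - 2) * b) * U0 ^ a * (U0 ^ (N - 2)) ^ b := by
    rw [← pow_mul, ← pow_add, ← pow_add]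
    congr 1
    omega
  rw [k5, ha, hb, zpow_natCast, zpow_natCast, mul_pow, mul_pow, inv_pow, inv_pow]
  generalize U0 ^ ((N - 2) * e - a - (N - 2) * b) = P
  generalize U0 ^ a = Q
  generalize (U0 ^ (N - 2)) ^ b = R
  generalize U1 ^ a = S
  generalize U2 ^ b = T
  calc P * S * T = P * S * T * (Q * Q⁻¹) * (R * R⁻¹) := by
        rw [mul_inv_cancel, mul_inv_cancel, mul_one, mul_one]
    _ = P * Q * R * (S * Q⁻¹ * (T * R⁻¹)) := by
        apply Units.ext
        push_cast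
        ring

end dl

section tu
variable {K : Type} [Field K]

theorem tv_ne_zero : tv K ≠ 0 := by simp [tv]

/-- the unit `tv` -/
noncomputable def tu (K : Type) [Field K] : (PS (LaurentSeries K))ˣ :=
  Units.map (MvPowerSeries.C (σ := Fin 2) : LaurentSeries K →+* PS (LaurentSeries K)).toMonoidHom
    (Units.mk0 (tv K) tv_ne_zero)

theorem tu_zpow (n : ℤ) : ((tu K ^ n : (PS (LaurentSeries K))ˣ) : PS (LaurentSeries K)) =
    MvPowerSeries.C (σ := Fin 2) (tv K ^ n) := by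
  unfold tu
  rw [← map_zpow, Units.coe_map]
  simp

theorem tu_val : ((tu K : (PS (LaurentSeries K))ˣ) : PS (LaurentSeries K)) =
    MvPowerSeries.C (σ := Fin 2) (tv K) := rfl

theorem ev_scl (X Y : (PS (LaurentSeries K))ˣ) (g : (ℤ × ℤ) →₀ LaurentSeries K) :
    ev (tu K * X) (tu K * Y) g = ev X Y (scl g) := by
  unfold ev Finsupp.sum
  rw [scl_support]
  refine sum_congr rfl fun m _ => ?_
  beta_reduce
  rw [scl_apply]
  have e : (tu K * X) ^ m.1 * (tu K * Y) ^ m.2 = tu K ^ (m.1 + m.2) * (X ^ m.1 * Y ^ m.2) := by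
    rw [mul_zpow, mul_zpow, zpow_add]
    exact mul_mul_mul_comm _ _ _ _
  rw [e, Units.val_mul, tu_zpow, mul_smul, ← MvPowerSeries.smul_eq_C_mul]

theorem cc_tu (X : (PS (LaurentSeries K))ˣ) : cc ((tu K * X : (PS (LaurentSeries K))ˣ) : PS (LaurentSeries K)) =
    tv K * cc (X : PS (LaurentSeries K)) := by
  rw [Units.val_mul, cc_mul, tu_val]
  unfold cc
  rw [MvPowerSeries.constantCoeff_C]

theorem dl_tu (X : (PS (LaurentSeries K))ˣ) : dl ((tu K * X : (PS (LaurentSeries K))ˣ) : PS (LaurentSeries K)) =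
    tv K * dl (X : PS (LaurentSeries K)) := by
  rw [Units.val_mul, tu_val, ← MvPowerSeries.smul_eq_C_mul]
  unfold dl
  rw [MvPowerSeries.coeff_smul]

end tu

end Pool.Agent.TH183.QN
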