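import Pool.Agent.TH183.QN.Base
import Pool.Agent.TH181.Nag.Sys

/-! Emptiness for quasimonomial valuations of germs at points of the torus. -/

namespace Pool.Agent.TH183.QN

open Finset Pool.Agent.TH176.Nag

section ld
variable {K : Type} [Field K]

theorem cc_unit_ne_zero (X : (PS K)ˣ) : cc (X : PS K) ≠ 0 := by
  have h : cc (X : PS K) * cc ((X⁻¹ : (PS K)ˣ) : PS K) = 1 := by
    unfold cc
    rw [← map_mul, ← Units.val_mul, mul_inv_cancel, Units.val_one, map_one]
  exact left_ne_zero_of_mul_eq_one h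

/-- the logarithmic derivative in the direction `u` -/
noncomputable def ld (X : (PS K)ˣ) : K := dl (X : PS K) / cc (X : PS K)

theorem ld_mul (X Y : (PS K)ˣ) : ld (X * Y) = ld X + ld Y := by
  unfold ld
  rw [Units.val_mul, dl_mul]
  have hX := cc_unit_ne_zero X
  have hY := cc_unit_ne_zero Y
  have : cc ((X : PS K) * (Y : PS K)) = cc (X : PS K) * cc (Y : PS K) := by
    unfold cc; rw [map_mul]
  rw [this]
  field_simp
  ring

theorem ld_one : ld (1 : (PS K)ˣ) = 0 := by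
  have := ld_mul (1 : (PS K)ˣ) 1
  rw [one_mul] at this
  linear_combination -this

theorem ld_pow (X : (PS K)ˣ) (n : ℕ) : ld (X ^ n) = n * ld X := by
  induction n with
  | zero => rw [pow_zero, ld_one]; simp
  | succ n ih => rw [pow_succ, ld_mul, ih]; push_cast; ring

theorem ld_inv (X : (PS K)ˣ) : ld X⁻¹ = -ld X := by
  have := ld_mul X X⁻¹
  rw [mul_inv_cancel, ld_one] at this
  linear_combination -this

theorem ld_zpow (X : (PS K)ˣ) (n : ℤ) : ld (X ^ n) = n * ld X := by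
  obtain ⟨k, rfl | rfl⟩ := n.eq_nat_or_neg
  · rw [zpow_natCast, ld_pow]; push_cast; rfl
  · rw [zpow_neg, ld_inv, zpow_natCast, ld_pow]; push_cast; ring

theorem dl_ne_iff (X : (PS K)ˣ) : dl (X : PS K) ≠ 0 ↔ ld X ≠ 0 := by
  unfold ld
  have hX := cc_unit_ne_zero X
  simp [hX]

end ld

section lin
variable {K : Type} [Field K] (X Y : (PS K)ˣ)

/-- evaluation as a linear map -/
noncomputable def evl : ((ℤ × ℤ) →₀ K) →ₗ[K] PS K :=
  Finsupp.linearCombination K fun m => ((X ^ m.1 * Y ^ m.2 : (PS K)ˣ) : PS K)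

theorem evl_apply (f : (ℤ × ℤ) →₀ K) : evl X Y f = ev X Y f := rfl

theorem ev_zero : ev X Y 0 = 0 := by rw [← evl_apply, map_zero]

theorem ev_add (f g : (ℤ × ℤ) →₀ K) : ev X Y (f + g) = ev X Y f + ev X Y g := by
  simp only [← evl_apply, map_add]

theorem ev_sum {κ : Type*} (s : Finset κ) (f : κ → (ℤ × ℤ) →₀ K) :
    ev X Y (∑ k ∈ s, f k) = ∑ k ∈ s, ev X Y (f k) := by
  simp only [← evl_apply, map_sum]

theorem ev_single (m : ℤ × ℤ) (c : K) :
    ev X Y (Finsupp.single m c) = c • ((X ^ m.1 * Y ^ m.2 : (PS K)ˣ) : PS K) := by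
  unfold ev
  rw [Finsupp.sum_single_index (by rw [zero_smul])]

end lin

section map
variable {K K' : Type} [Field K] [Field K']

/-- extension of scalars for units -/
noncomputable def mu (ρ : K →+* K') : (PS K)ˣ →* (PS K')ˣ :=
  Units.map (MvPowerSeries.map (σ := Fin 2) ρ : PS K →+* PS K').toMonoidHom

theorem mu_val (ρ : K →+* K') (X : (PS K)ˣ) :
    ((mu ρ X : (PS K')ˣ) : PS K') = MvPowerSeries.map (σ := Fin 2) ρ (X : PS K) := rfl

theorem cc_mu (ρ : K →+* K') (X : (PS K)ˣ) : cc ((mu ρ X : (PS K')ˣ) : PS K') = ρ (cc (X : PS K)) := by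
  rw [mu_val]
  unfold cc
  rw [← MvPowerSeries.coeff_zero_eq_constantCoeff_apply, ← MvPowerSeries.coeff_zero_eq_constantCoeff_apply,
    MvPowerSeries.coeff_map]

theorem dl_mu (ρ : K →+* K') (X : (PS K)ˣ) : dl ((mu ρ X : (PS K')ˣ) : PS K') = ρ (dl (X : PS K)) := by
  rw [mu_val]
  unfold dl
  rw [MvPowerSeries.coeff_map]

theorem ld_mu (ρ : K →+* K') (X : (PS K)ˣ) : ld (mu ρ X) = ρ (ld X) := by
  unfold ld
  rw [dl_mu, cc_mu, map_div₀]

/-- extraction of coefficients -/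
theorem Wt_linear (ρ : K →+* K') (φ : K' →+ K) (hφ : ∀ g c, φ (g * ρ c) = φ g * c)
    {X Y : (PS K)ˣ} {t c : ℝ} {g : (ℤ × ℤ) →₀ K'}
    (h : Wt t c (ev (mu ρ X) (mu ρ Y) g)) : Wt t c (ev X Y (g.mapRange φ (map_zero φ))) := by
  intro e he
  have h1 := h e he
  unfold ev at h1 ⊢
  rw [Finsupp.sum_mapRange_index (by simp)]
  have h2 := congrArg φ h1
  rw [map_zero] at h2
  rw [← h2]
  unfold Finsupp.sum
  rw [map_sum, map_sum, map_sum]
  apply sum_congr rfl
  intro m _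
  rw [MvPowerSeries.coeff_smul, MvPowerSeries.coeff_smul, ← map_zpow, ← map_zpow, ← map_mul, mu_val,
    MvPowerSeries.coeff_map, hφ]

end map

section Emp
variable {ι : Type}

/-- emptiness for the quasimonomial valuations with weights `t i`: for some germs over some field
of characteristic zero there is no nonzero Laurent polynomial with exponents in `S` and values at
least `c i` -/
def EmpW (t c : ι → ℝ) (S : Set (ℤ × ℤ)) : Prop :=
  ∃ (K : Type) (_ : Field K) (_ : CharZero K) (X Y : ι → (PS K)ˣ),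
    (∀ i, ld (X i) ≠ 0 ∨ ld (Y i) ≠ 0) ∧
    ∀ f : (ℤ × ℤ) →₀ K, (↑f.support : Set (ℤ × ℤ)) ⊆ S →
      (∀ i, Wt (t i) (c i) (ev (X i) (Y i) f)) → f = 0

theorem EmpW.mono {t c : ι → ℝ} {S S' : Set (ℤ × ℤ)} (h : EmpW t c S') (hS : S ⊆ S') :
    EmpW t c S := by
  obtain ⟨K, _, _, X, Y, hX, hf⟩ := h
  exact ⟨K, _, inferInstance, X, Y, hX, fun f h1 h2 => hf f (h1.trans hS) h2⟩

theorem EmpW.comap {t c : ι → ℝ} (ht : ∀ i, 0 ≤ t i) {S S' : Set (ℤ × ℤ)} (h : EmpW t c S')
    (a b c' d u v : ℤ) (hdet : a * d - b * c' ≠ 0)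
    (hS : ∀ m ∈ S, (a * m.1 + b * m.2 + u, c' * m.1 + d * m.2 + v) ∈ S') : EmpW t c S := by
  classical
  obtain ⟨K, _, _, X, Y, hX, hf⟩ := h
  let φ : ℤ × ℤ → ℤ × ℤ := fun m => (a * m.1 + b * m.2 + u, c' * m.1 + d * m.2 + v)
  have hφ : Function.Injective φ := by
    rintro ⟨p, q⟩ ⟨p', q'⟩ h
    simp only [φ, Prod.mk.injEq] at h
    obtain ⟨h1, h2⟩ := h
    have e1 : (a * d - b * c') * (p - p') = 0 := by linear_combination d * h1 - b * h2
    have e2 : (a * d - b * c') * (q - q') = 0 := by linear_combination a * h2 - c' * h1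
    have e3 := (mul_eq_zero.1 e1).resolve_left hdet
    have e4 := (mul_eq_zero.1 e2).resolve_left hdet
    ext <;> simp <;> omega
  refine ⟨K, _, inferInstance, fun i => X i ^ a * Y i ^ c', fun i => X i ^ b * Y i ^ d,
    fun i => ?_, ?_⟩
  · rw [ld_mul, ld_mul, ld_zpow, ld_zpow, ld_zpow, ld_zpow]
    by_contra hcon
    push Not at hcon
    obtain ⟨h1, h2⟩ := hcon
    have hd : ((a * d - b * c' : ℤ) : K) ≠ 0 := by exact_mod_cast hdet
    have e1 : ((a * d - b * c' : ℤ) : K) * ld (X i) = 0 := by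
      push_cast; linear_combination (d : K) * h1 - (c' : K) * h2
    have e2 : ((a * d - b * c' : ℤ) : K) * ld (Y i) = 0 := by
      push_cast; linear_combination (a : K) * h2 - (b : K) * h1
    rcases hX i with h | h
    · exact h ((mul_eq_zero.1 e1).resolve_left hd)
    · exact h ((mul_eq_zero.1 e2).resolve_left hd)
  intro f hfS hfL
  have h1 : f.mapDomain φ = 0 := by
    apply hf
    · intro m hm
      have := Finsupp.mapDomain_support hm
      simp only [Finset.mem_image] at this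
      obtain ⟨m', hm', rfl⟩ := this
      exact hS m' (hfS hm')
    · intro i
      rw [ev_mapDomain]
      exact (hfL i).mul_left (ht i) _
  exact (Finsupp.mapDomain_injective hφ) (by rw [h1, Finsupp.mapDomain_zero])

theorem EmpW.pow {t c : ι → ℝ} (ht : ∀ i, 0 ≤ t i) {S S' : Set (ℤ × ℤ)} (k : ℕ) (hk : 1 ≤ k)
    (hS : Pool.Agent.TH181.Nag.kS S k ⊆ S') (h : EmpW t (fun i => k * c i) S') : EmpW t c S := by
  obtain ⟨K, _, _, X, Y, hX, hf⟩ := h
  refine ⟨K, _, inferInstance, X, Y, hX, fun f h1 h2 => ?_⟩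
  obtain ⟨F, rfl⟩ : ∃ F : Lau K, F.coeff = f := ⟨AddMonoidAlgebra.ofCoeff f, rfl⟩
  have h3 := hf (F ^ k).coeff ((Pool.Agent.TH181.Nag.supp_pow h1 k).trans hS) (fun i => by
    rw [← evA_apply, map_pow, evA_apply]
    exact (h2 i).pow (ht i) k)
  have h4 : F ^ k = 0 := by
    ext m
    rw [h3]; simp
  have h5 : F = 0 := pow_eq_zero_iff (by omega) |>.1 h4
  rw [h5]; rfl

end Emp

end Pool.Agent.TH183.QN
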