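import Pool.Agent.TH183.QN.Sys

/-! The last step: points on a line with the germs of vertical direction given by the line. -/

namespace Pool.Agent.TH183.QN

open Finset Pool.Agent.TH176.Nag Pool.Agent.TH181.NagM

section coe
variable {K : Type} [Field K]

theorem coeff_two (a b : ℕ) (e : Fin 2 →₀ ℕ) :
    MvPowerSeries.coeff e (((1 : PS K) + MvPowerSeries.X 0) ^ a * (1 + MvPowerSeries.X 1) ^ b) =
      (a.choose (e 0) : K) * (b.choose (e 1) : K) := by
  classical
  rw [add_comm (1 : PS K), add_pow, add_comm (1 : PS K), add_pow, sum_mul_sum, map_sum]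
  simp only [map_sum, one_pow, mul_one]
  have key : ∀ i j : ℕ, MvPowerSeries.coeff e (MvPowerSeries.X (0 : Fin 2) ^ i * ((a.choose i : ℕ) : PS K) *
      (MvPowerSeries.X (1 : Fin 2) ^ j * ((b.choose j : ℕ) : PS K))) =
      if e 0 = i ∧ e 1 = j then (a.choose i : K) * (b.choose j : K) else 0 := by
    intro i j
    have e1 : MvPowerSeries.X (0 : Fin 2) ^ i * ((a.choose i : ℕ) : PS K) *
      (MvPowerSeries.X (1 : Fin 2) ^ j * ((b.choose j : ℕ) : PS K)) =
      MvPowerSeries.monomial (Finsupp.single 0 i + Finsupp.single 1 j) ((a.choose i : K) * (b.choose j : K)) := by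
      have c1 : ∀ n : ℕ, ((n : ℕ) : PS K) = MvPowerSeries.monomial 0 (n : K) := by
        intro n
        rw [MvPowerSeries.monomial_zero_eq_C_apply, map_natCast]
      rw [MvPowerSeries.X_pow_eq, MvPowerSeries.X_pow_eq, c1, c1, MvPowerSeries.monomial_mul_monomial,
        MvPowerSeries.monomial_mul_monomial, MvPowerSeries.monomial_mul_monomial]
      simp
    rw [e1, MvPowerSeries.coeff_monomial]
    congr 1
    rw [eq_iff_iff]
    constructor
    · rintro rfl
      simp
    · rintro ⟨rfl, rfl⟩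
      ext k
      fin_cases k <;> simp
  simp only [key]
  by_cases ha : e 0 < a + 1
  · by_cases hb : e 1 < b + 1
    · rw [Finset.sum_eq_single (e 0), Finset.sum_eq_single (e 1)]
      · simp
      · intro j _ hj; rw [if_neg]; rintro ⟨_, h⟩; exact hj h.symm
      · intro h; exact absurd (mem_range.2 hb) h
      · intro i _ hi
        apply sum_eq_zero
        intro j _; rw [if_neg]; rintro ⟨h, _⟩; exact hi h.symm
      · intro h; exact absurd (mem_range.2 ha) h
    · rw [sum_eq_zero, Nat.choose_eq_zero_of_lt (show b < e 1 by omega)]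
      · simp
      · intro i _
        apply sum_eq_zero
        intro j hj
        rw [if_neg]
        rintro ⟨_, h⟩
        have := mem_range.1 hj
        omega
  · rw [sum_eq_zero, Nat.choose_eq_zero_of_lt (show a < e 0 by omega)]
    · simp
    · intro i hi
      apply sum_eq_zero
      intro j _
      rw [if_neg]
      rintro ⟨h, _⟩
      have := mem_range.1 hi
      omega

/-- the unit `1 + X_k` -/
noncomputable def ou (K : Type) [Field K] (k : Fin 2) : (PS K)ˣ :=
  uo (1 + MvPowerSeries.X k) (by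
    unfold cc
    rw [map_add, map_one, MvPowerSeries.constantCoeff_X]
    simp)

theorem ou_val (k : Fin 2) : ((ou K k : (PS K)ˣ) : PS K) = 1 + MvPowerSeries.X k := rfl

/-- the unit `x (1 + X_k)` -/
noncomputable def xu {x : K} (hx : x ≠ 0) (k : Fin 2) : (PS K)ˣ :=
  Units.map (MvPowerSeries.C (σ := Fin 2) : K →+* PS K).toMonoidHom (Units.mk0 x hx) * ou K k

theorem xu_pow {x : K} (hx : x ≠ 0) (k : Fin 2) (n : ℕ) :
    ((xu hx k ^ n : (PS K)ˣ) : PS K) = x ^ n • (1 + MvPowerSeries.X k) ^ n := by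
  unfold xu
  rw [mul_pow, Units.val_mul, ← map_pow, Units.coe_map, MvPowerSeries.smul_eq_C_mul]
  simp [ou_val]

theorem ld_ou_zero : ld (ou K 0) = 1 := by
  unfold ld
  rw [ou_val]
  have h1 : cc ((1 : PS K) + MvPowerSeries.X 0) = 1 := by
    unfold cc
    rw [map_add, map_one, MvPowerSeries.constantCoeff_X, add_zero]
  have h2 : dl ((1 : PS K) + MvPowerSeries.X 0) = 1 := by
    classical
    rw [dl_add, dl_one, zero_add]
    unfold dl
    rw [MvPowerSeries.coeff_X, if_pos rfl]
  rw [h1, h2, div_one]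

theorem dl_C (x : K) : dl (MvPowerSeries.C (σ := Fin 2) x : PS K) = 0 := by
  classical
  unfold dl
  rw [MvPowerSeries.coeff_C, if_neg (by simp)]

theorem ld_xu {x : K} (hx : x ≠ 0) : ld (xu hx 0) = 1 := by
  unfold xu
  rw [ld_mul, ld_ou_zero]
  have : ld (Units.map (MvPowerSeries.C (σ := Fin 2) : K →+* PS K).toMonoidHom (Units.mk0 x hx)) = 0 := by
    unfold ld
    rw [Units.coe_map]
    have := dl_C x
    simp only [Units.val_mk0, RingHom.toMonoidHom_eq_coe, MonoidHom.coe_coe]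
    rw [this, zero_div]
  rw [this, zero_add]

end coe

section poly
variable {K : Type} [Field K]

/-- the polynomials in the expansion in powers of `v` -/
noncomputable def FJ (f : (ℤ × ℤ) →₀ K) (J : ℕ) : Polynomial K :=
  ∑ m ∈ f.support, Polynomial.C (f m * (m.2.toNat.choose J : K)) * Polynomial.X ^ m.1.toNat

theorem coeff_ev {f : (ℤ × ℤ) →₀ K} (hf : ∀ m ∈ f.support, 0 ≤ m.1 ∧ 0 ≤ m.2) {x : K} (hx : x ≠ 0)
    (e : Fin 2 →₀ ℕ) :
    MvPowerSeries.coeff e (ev (xu hx 0) (ou K 1) f) =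
      x ^ (e 0) * (Polynomial.taylor x (FJ f (e 1))).coeff (e 0) := by
  unfold ev Finsupp.sum FJ
  rw [map_sum, map_sum, Polynomial.finsetSum_coeff, mul_sum]
  refine sum_congr rfl fun m hm => ?_
  obtain ⟨h1, h2⟩ := hf m hm
  obtain ⟨a, ha⟩ := Int.eq_ofNat_of_zero_le h1
  obtain ⟨b, hb⟩ := Int.eq_ofNat_of_zero_le h2
  have ha' : m.1.toNat = a := by omega
  have hb' : m.2.toNat = b := by omega
  rw [MvPowerSeries.coeff_smul, ha', hb', ha, hb, zpow_natCast, zpow_natCast, Units.val_mul, xu_pow,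
    Units.val_pow_eq_pow_val, ou_val, smul_mul_assoc, MvPowerSeries.coeff_smul, coeff_two,
    Polynomial.taylor_coeff]
  rw [Polynomial.C_mul_X_pow_eq_monomial, Polynomial.hasseDeriv_monomial, Polynomial.eval_monomial]
  rcases le_or_gt (e 0) a with h | h
  · have : x ^ a = x ^ (e 0) * x ^ (a - e 0) := by rw [← pow_add]; congr 1; omega
    rw [this]; ring
  · rw [Nat.choose_eq_zero_of_lt h]; simp

theorem FJ_coeff {f : (ℤ × ℤ) →₀ K} (hf : ∀ m ∈ f.support, 0 ≤ m.1 ∧ 0 ≤ m.2) (J a : ℕ) :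
    (FJ f J).coeff a = ∑ b ∈ (f.support.filter fun m => m.1 = (a : ℤ)).image (fun m => m.2.toNat),
      (b.choose J : K) * f ((a : ℤ), (b : ℤ)) := by
  classical
  rw [sum_image, sum_filter]
  · unfold FJ
    rw [Polynomial.finsetSum_coeff]
    refine sum_congr rfl fun m hm => ?_
    obtain ⟨h1, h2⟩ := hf m hm
    rw [Polynomial.coeff_C_mul, Polynomial.coeff_X_pow]
    by_cases h : m.1 = a
    · have h3 : a = m.1.toNat := by omega
      have h4 : (((a : ℕ) : ℤ), ((m.2.toNat : ℕ) : ℤ)) = m := by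
        ext
        · exact h.symm
        · simp only; omega
      rw [if_pos h, if_pos h3, h4]; ring
    · have h3 : a ≠ m.1.toNat := by omega
      rw [if_neg h, if_neg h3]; ring
  · intro m hm m' hm' h
    rw [mem_coe, mem_filter] at hm hm'
    have h1 := hf m hm.1
    have h2 := hf m' hm'.1
    simp only at h
    ext
    · rw [hm.2, hm'.2]
    · omega

end poly

section final
variable {ι : Type} [Fintype ι]

theorem EmpW.final_nonneg {tw c : ι → ℝ} {n α β : ℝ} (hn0 : 0 ≤ n) (hn : n = ∑ i, tw i) (hα : 0 ≤ α)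
    (h : β - α < ∑ i, c i) : EmpW tw c (Reg α β 0 n) := by
  classical
  obtain ⟨x, hxinj, hx⟩ : ∃ x : ι → ℚ, Function.Injective x ∧ ∀ i, x i ≠ 0 := by
    refine ⟨fun i => ((Fintype.equivFin ι i : ℕ) : ℚ) + 1, ?_, ?_⟩
    · intro i j hij
      simp only [add_left_inj, Nat.cast_inj] at hij
      exact (Fintype.equivFin ι).injective (Fin.ext hij)
    · intro i; positivity
  refine ⟨ℚ, inferInstance, inferInstance, fun i => xu (hx i) 0, fun _ => ou ℚ 1,
    fun i => Or.inl (by rw [ld_xu]; exact one_ne_zero), ?_⟩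
  intro f hfS hfL
  by_contra hne
  have hf : ∀ m ∈ f.support, 0 ≤ m.1 ∧ 0 ≤ m.2 := by
    intro m hm
    obtain ⟨h1, h2, h3⟩ := hfS hm
    refine ⟨?_, h1⟩
    have : (0 : ℝ) ≤ m.1 := by linarith
    exact_mod_cast this
  -- the first nonzero polynomial
  have hex : ∃ J, FJ f J ≠ 0 := by
    by_contra hall
    push Not at hall
    apply hne
    ext1 m
    by_contra hm
    have hm' : m ∈ f.support := Finsupp.mem_support_iff.2 hm
    obtain ⟨h1, h2⟩ := hf m hm'
    obtain ⟨a, ha⟩ := Int.eq_ofNat_of_zero_le h1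
    have h3 := vand (B := (f.support.filter fun m => m.1 = (a : ℤ)).image (fun m => m.2.toNat))
      (v := fun b => f ((a : ℤ), (b : ℤ))) (fun l _ => by
        rw [← FJ_coeff hf, hall l, Polynomial.coeff_zero]) m.2.toNat
        (mem_image.2 ⟨m, mem_filter.2 ⟨hm', ha⟩, rfl⟩)
    have h4 : (((a : ℕ) : ℤ), ((m.2.toNat : ℕ) : ℤ)) = m := by
      ext
      · exact ha.symm
      · simp only; omega
    simp only [h4] at h3
    exact hm h3
  let J := Nat.find hex
  have hJ : FJ f J ≠ 0 := Nat.find_spec hex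
  have hJmin : ∀ l < J, FJ f l = 0 := fun l hl => not_not.1 (Nat.find_min hex hl)
  clear_value J
  -- the exponents
  have hexp : ∀ a, (FJ f J).coeff a ≠ 0 → α ≤ a ∧ (a : ℝ) ≤ β - n * J := by
    intro a ha
    rw [FJ_coeff hf] at ha
    obtain ⟨b, hb, hbJ⟩ := exists_ne_zero_of_sum_ne_zero ha
    have hcard : J < ((f.support.filter fun m => m.1 = (a : ℤ)).image (fun m => m.2.toNat)).card := by
      by_contra hle
      have h3 := vand (B := (f.support.filter fun m => m.1 = (a : ℤ)).image (fun m => m.2.toNat))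
        (v := fun b => f ((a : ℤ), (b : ℤ))) (fun l hl => by
          rw [← FJ_coeff hf, hJmin l (by omega), Polynomial.coeff_zero]) b hb
      rw [h3, mul_zero] at hbJ
      exact hbJ rfl
    obtain ⟨b', hb', hJb⟩ : ∃ b' ∈ (f.support.filter fun m => m.1 = (a : ℤ)).image (fun m => m.2.toNat), J ≤ b' := by
      by_contra hall
      push Not at hall
      have : (f.support.filter fun m => m.1 = (a : ℤ)).image (fun m => m.2.toNat) ⊆ range J :=
        fun b hb => mem_range.2 (hall b hb)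
      have := card_le_card this
      rw [card_range] at this
      omega
    rw [mem_image] at hb'
    obtain ⟨m, hm, rfl⟩ := hb'
    rw [mem_filter] at hm
    obtain ⟨h1, h2, h3⟩ := hfS hm.1
    have h4 : (m.1 : ℝ) = a := by rw [hm.2]; push_cast; rfl
    have h5 : (J : ℝ) ≤ (m.2 : ℝ) := by
      have : (J : ℤ) ≤ m.2 := by omega
      exact_mod_cast this
    rw [h4] at h2 h3
    refine ⟨by linarith, ?_⟩
    have h6 : n * (J : ℝ) ≤ n * (m.2 : ℝ) := mul_le_mul_of_nonneg_left h5 hn0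
    linarith
  -- the zeros
  have hdvd : ∀ i, (Polynomial.X - Polynomial.C (x i)) ^ ⌈c i - tw i * J⌉₊ ∣ FJ f J := by
    intro i
    rw [Polynomial.X_sub_C_pow_dvd_iff, ← Polynomial.taylor_apply, Polynomial.X_pow_dvd_iff]
    intro k hk
    have h1 := hfL i (Finsupp.single 0 k + Finsupp.single 1 J) (by
      have h2 : (k : ℝ) < c i - tw i * J := Nat.lt_ceil.1 hk
      simp
      linarith)
    rw [coeff_ev hf (hx i)] at h1
    have h2 : (Finsupp.single (0 : Fin 2) k + Finsupp.single 1 J : Fin 2 →₀ ℕ) 0 = k := by simp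
    have h3 : (Finsupp.single (0 : Fin 2) k + Finsupp.single 1 J : Fin 2 →₀ ℕ) 1 = J := by simp
    rw [h2, h3] at h1
    exact (mul_eq_zero.1 h1).resolve_left (pow_ne_zero _ (hx i))
  have hX : Polynomial.X ^ ⌈α⌉₊ ∣ FJ f J := by
    rw [Polynomial.X_pow_dvd_iff]
    intro k hk
    by_contra h1
    have h2 := (hexp k h1).1
    have h3 := Nat.lt_ceil.1 hk
    linarith
  have hprod : (∏ i, (Polynomial.X - Polynomial.C (x i)) ^ ⌈c i - tw i * J⌉₊) ∣ FJ f J := by
    apply Finset.prod_dvd_of_coprime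
    · intro i _ j _ hij
      apply IsCoprime.pow
      apply Polynomial.isCoprime_X_sub_C_of_isUnit_sub
      rw [isUnit_iff_ne_zero, sub_ne_zero]
      exact fun h => hij (hxinj h)
    · intro i _; exact hdvd i
  have hcop : IsCoprime (Polynomial.X ^ ⌈α⌉₊ : Polynomial ℚ)
      (∏ i, (Polynomial.X - Polynomial.C (x i)) ^ ⌈c i - tw i * J⌉₊) := by
    apply IsCoprime.prod_right
    intro i _
    apply IsCoprime.pow
    have : IsCoprime (Polynomial.X - Polynomial.C (0 : ℚ)) (Polynomial.X - Polynomial.C (x i)) := by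
      apply Polynomial.isCoprime_X_sub_C_of_isUnit_sub
      rw [isUnit_iff_ne_zero, zero_sub]
      exact neg_ne_zero.2 (hx i)
    simpa using this
  have hall := hcop.mul_dvd hX hprod
  have hdeg := Polynomial.natDegree_le_of_dvd hall hJ
  have hmonic : ∀ i ∈ (univ : Finset ι), ((Polynomial.X - Polynomial.C (x i)) ^ ⌈c i - tw i * J⌉₊ : Polynomial ℚ).Monic :=
    fun i _ => (Polynomial.monic_X_sub_C _).pow _
  rw [Polynomial.Monic.natDegree_mul (Polynomial.monic_X_pow _) (Polynomial.monic_prod_of_monic _ _ hmonic),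
    Polynomial.natDegree_X_pow, Polynomial.natDegree_prod_of_monic _ _ hmonic] at hdeg
  simp only [Polynomial.natDegree_pow, Polynomial.natDegree_X_sub_C, mul_one] at hdeg
  have hlead : (FJ f J).coeff (FJ f J).natDegree ≠ 0 := by
    rw [Polynomial.coeff_natDegree]
    exact Polynomial.leadingCoeff_ne_zero.2 hJ
  have h1 := (hexp _ hlead).2
  have h2 : (α : ℝ) ≤ ⌈α⌉₊ := Nat.le_ceil α
  have h3 : (∑ i, (c i - tw i * J)) ≤ ((∑ i, ⌈c i - tw i * J⌉₊ : ℕ) : ℝ) := by
    push_cast
    exact sum_le_sum fun i _ => Nat.le_ceil _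
  rw [sum_sub_distrib, ← sum_mul, ← hn] at h3
  have h4 : ((⌈α⌉₊ + ∑ i, ⌈c i - tw i * J⌉₊ : ℕ) : ℝ) ≤ ((FJ f J).natDegree : ℝ) := by
    exact_mod_cast hdeg
  push_cast at h3 h4
  linarith

theorem EmpW.final {tw c : ι → ℝ} (htw : ∀ i, 0 ≤ tw i) {n α β : ℝ} (hn : n = ∑ i, tw i)
    (h : β - α < ∑ i, c i) : EmpW tw c (Reg α β 0 n) := by
  have hn0 : 0 ≤ n := by rw [hn]; exact sum_nonneg fun i _ => htw i
  obtain ⟨N, hN⟩ := exists_nat_ge (-α)
  have h1 := EmpW.final_nonneg (tw := tw) (c := c) (n := n) (α := α + N) (β := β + N) hn0 hn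
    (by linarith) (by linarith)
  refine h1.comap htw 1 0 0 1 N 0 (by norm_num) ?_
  rintro ⟨a, b⟩ ⟨h1, h2, h3⟩
  simp only at h1 h2 h3
  refine ⟨by simpa using h1, ?_, ?_⟩
  · simp only
    push_cast
    linarith
  · simp only
    push_cast
    linarith

/-- the size of a family of values -/
noncomputable def sz (C : ℝ) (c : ι → ℝ) : ℝ := (∑ i, c i) / C

theorem sz_sc (C : ℝ) (k : ℕ) (c : ι → ℝ) : sz C (fun i => (k : ℝ) * c i) = k * sz C c := by
  unfold sz
  rw [← mul_sum, mul_div_assoc]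

theorem shp_final {tw : ι → ℝ} (htw : ∀ i, 0 ≤ tw i) {n : ℝ} (hn0 : 0 < n) (hn : n = ∑ i, tw i) :
    Shp (fun (c : ι → ℝ) S => EmpW tw c S) (sz √n) 0 n := by
  intro c E hE hEc α
  apply EmpW.final htw hn
  have hs : 0 < √n := Real.sqrt_pos.2 hn0
  unfold sz at hEc
  rw [lt_div_iff₀ hs] at hEc
  rw [zero_add]
  linarith

/-- the consequence of the moves -/
theorem EmpW.of_Mv {tw : ι → ℝ} (htw : ∀ i, 0 ≤ tw i) {n : ℝ} (hn0 : 0 < n) (hn : n = ∑ i, tw i)
    {M : ℝ} (h : Mv 0 M 0 n) : Shp (fun (c : ι → ℝ) S => EmpW tw c S) (sz √n) 0 M :=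
  h.closed ((EmpW.sys htw).closed (sz_sc √n)) (shp_final htw hn0 hn)

end final

end Pool.Agent.TH183.QN
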