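import Pool.Agent.TH183.QN.Emp

/-! Flattening for quasimonomial valuations. -/

namespace Pool.Agent.TH183.QN

open Finset Pool.Agent.TH176.Nag

section
variable {K : Type} [Field K]

/-- extraction of a coefficient of a Laurent series -/
noncomputable def cf (n : ℤ) : LaurentSeries K →+ K where
  toFun u := u.coeff n
  map_zero' := rfl
  map_add' _ _ := rfl

theorem Wt_coeff {X Y : (PS K)ˣ} {t c : ℝ} {g : (ℤ × ℤ) →₀ LaurentSeries K}
    (h : Wt t c (ev (mu (HahnSeries.C : K →+* LaurentSeries K) X)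
      (mu (HahnSeries.C : K →+* LaurentSeries K) Y) g)) (n : ℤ) :
    Wt t c (ev X Y (g.mapRange (fun u => u.coeff n) rfl)) := by
  have h2 := Wt_linear (HahnSeries.C : K →+* LaurentSeries K) (cf n) (fun g c => by
    show (g * cst c).coeff n = g.coeff n * c
    rw [coeff_mul_cst, mul_comm]) h
  exact h2

/-- the unit `1 + t Y` -/
noncomputable def uni (Y : (PS K)ˣ) : (PS (LaurentSeries K))ˣ :=
  (show IsUnit (1 + tv K • ((mu (HahnSeries.C : K →+* LaurentSeries K) Y :
      (PS (LaurentSeries K))ˣ) : PS (LaurentSeries K))) by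
    rw [MvPowerSeries.isUnit_iff_constantCoeff, map_add, map_one,
      ← MvPowerSeries.coeff_zero_eq_constantCoeff_apply, MvPowerSeries.coeff_smul,
      MvPowerSeries.coeff_zero_eq_constantCoeff_apply, isUnit_iff_ne_zero]
    have h0 := cc_mu (HahnSeries.C : K →+* LaurentSeries K) Y
    unfold cc at h0
    rw [h0]
    intro h
    have h1 := congrArg (fun u : LaurentSeries K => u.coeff 0) h
    simp only [HahnSeries.coeff_add, coeff_mul_cst, HahnSeries.coeff_zero] at h1
    have h2 : (tv K).coeff 0 = 0 := by simp [tv]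
    rw [h2] at h1
    simp at h1).unit

theorem uni_val (Y : (PS K)ˣ) : ((uni Y : (PS (LaurentSeries K))ˣ) : PS (LaurentSeries K)) =
    1 + tv K • ((mu (HahnSeries.C : K →+* LaurentSeries K) Y : (PS (LaurentSeries K))ˣ) :
      PS (LaurentSeries K)) := rfl

theorem ev_flt {N0 : ℕ} {f : (ℤ × ℤ) →₀ LaurentSeries K} (hN0 : ∀ m ∈ f.support, 0 ≤ m.2 + N0)
    (X Z U : (PS (LaurentSeries K))ˣ) (hU : (U : PS (LaurentSeries K)) = 1 + tv K • (Z : PS (LaurentSeries K))) :
    ev X Z (flt N0 f) = ((U ^ N0 : (PS (LaurentSeries K))ˣ) : PS (LaurentSeries K)) * ev X U f := by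
  unfold flt
  rw [ev_sum]
  conv_rhs => rw [ev, Finsupp.sum, mul_sum]
  apply sum_congr rfl
  intro m hm
  rw [ev_sum]
  simp only [ev_single]
  obtain ⟨b, hb⟩ := Int.eq_ofNat_of_zero_le (hN0 m hm)
  have hb' : (m.2 + (N0 : ℤ)).toNat = b := by omega
  have hm2 : m.2 = (b : ℤ) - N0 := by omega
  rw [hb', mul_smul_comm, ← Units.val_mul]
  have e1 : U ^ N0 * (X ^ m.1 * U ^ m.2) = X ^ m.1 * U ^ b := by
    have : U ^ b = U ^ N0 * U ^ m.2 := by
      rw [← zpow_natCast, ← zpow_natCast, ← zpow_add, hm2]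
      congr 1
      ring
    rw [this]
    exact mul_left_comm _ _ _
  rw [e1, Units.val_mul, Units.val_pow_eq_pow_val, hU, add_comm (1 : PS (LaurentSeries K)), add_pow,
    mul_sum, smul_sum]
  apply sum_congr rfl
  intro j _
  rw [Units.val_mul, zpow_natCast, Units.val_pow_eq_pow_val, one_pow, mul_one, smul_pow]
  have e2 : ((b.choose j : ℕ) : PS (LaurentSeries K)) =
      ((b.choose j : ℕ) : LaurentSeries K) • (1 : PS (LaurentSeries K)) := by
    rw [Nat.cast_smul_eq_nsmul, nsmul_eq_mul, mul_one]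
  rw [e2]
  simp only [smul_mul_assoc, mul_smul_comm, smul_smul, mul_one]
  congr 1
  ring

end

/-- the flattening lemma for the covector `(1, 0)` -/
theorem EmpW.flat0 {ι : Type} {t c : ι → ℝ} (ht : ∀ i, 0 ≤ t i) {S S' : Set (ℤ × ℤ)}
    (hS : ∀ (a : ℤ) (B : Finset ℤ), (∀ b ∈ B, ((a, b) : ℤ × ℤ) ∈ S) →
      ∀ k : ℕ, k < B.card → ((a, (k : ℤ)) : ℤ × ℤ) ∈ S') (h : EmpW t c S') : EmpW t c S := by
  classical
  obtain ⟨K, _, _, X, Y, hXY, hf⟩ := h
  refine ⟨LaurentSeries K, inferInstance, inferInstance,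
    fun i => mu (HahnSeries.C : K →+* LaurentSeries K) (X i), fun i => uni (Y i), fun i => ?_, ?_⟩
  · rcases hXY i with h | h
    · left
      rw [ld_mu]
      simpa using h
    · right
      rw [← dl_ne_iff] at h ⊢
      rw [uni_val]
      unfold dl
      rw [map_add, MvPowerSeries.coeff_smul]
      have h1 := dl_mu (HahnSeries.C : K →+* LaurentSeries K) (Y i)
      unfold dl at h1
      have h2 := dl_one (K := LaurentSeries K)
      unfold dl at h2
      rw [h1, h2, zero_add]
      exact (order_cst h).1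
  intro f hfS hfL
  by_contra hne
  obtain ⟨N0, hN0⟩ : ∃ N0 : ℕ, ∀ m ∈ f.support, 0 ≤ m.2 + (N0 : ℤ) := by
    refine ⟨∑ m ∈ f.support, m.2.natAbs, fun m hm => ?_⟩
    have : m.2.natAbs ≤ ∑ m ∈ f.support, m.2.natAbs :=
      single_le_sum (f := fun m : ℤ × ℤ => m.2.natAbs) (fun _ _ => Nat.zero_le _) hm
    omega
  obtain ⟨n, hn1, hn2, hn3⟩ := exists_lead (flt_ne_zero hN0 hne)
  apply hn1
  apply hf
  · intro m hm
    have hm' : (flt N0 f m).coeff n ≠ 0 := by
      simpa using hm
    by_cases hneg : m.2 < 0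
    · exfalso
      apply hm'
      have : flt N0 f (m.1, m.2) = 0 := flt_apply_neg N0 f m.1 m.2 hneg
      have e : m = (m.1, m.2) := rfl
      rw [e, this]; simp
    · obtain ⟨j, hj⟩ := Int.eq_ofNat_of_zero_le (not_lt.1 hneg)
      have e : m = (m.1, (j : ℤ)) := by ext <;> simp [hj]
      rw [e] at hm' ⊢
      have hlt : j < (fib N0 f m.1).card := by
        by_contra hge
        exact hm' (flt_coeff_eq_zero hN0 hn2 (not_lt.1 hge))
      have hB := hS m.1 ((f.support.filter (fun m' => m'.1 = m.1)).image Prod.snd) (by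
        intro b hb
        rw [mem_image] at hb
        obtain ⟨m', hm1, rfl⟩ := hb
        rw [mem_filter] at hm1
        apply hfS
        rw [← hm1.2]
        exact hm1.1) j
      apply hB
      have hcard : (fib N0 f m.1).card ≤ ((f.support.filter (fun m' => m'.1 = m.1)).image Prod.snd).card := by
        have : fib N0 f m.1 = (((f.support.filter (fun m' => m'.1 = m.1)).image Prod.snd)).image
            (fun b : ℤ => (b + N0).toNat) := by
          unfold fib; rw [image_image]; rfl
        rw [this]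
        exact card_image_le
      omega
  · intro i
    apply Wt_coeff
    rw [ev_flt hN0 _ _ (uni (Y i)) (uni_val _)]
    exact (hfL i).mul_left (ht i) _

end Pool.Agent.TH183.QN
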