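import Pool.Agent.TH183.QN.Final

/-! From germs at points of the torus to graphs of polynomials. -/

namespace Pool.Agent.TH183.QN

open Finset Pool.Agent.TH176.Nag

section form
variable {K : Type} [Field K]

/-- the exponents of the polynomials of degree at most `d` -/
def TT (d : ℕ) : Set (ℤ × ℤ) := {m | 0 ≤ m.1 ∧ 0 ≤ m.2 ∧ m.1 + m.2 ≤ d}

/-- the Laurent polynomial of a form -/
noncomputable def lf (F : MvPolynomial (Fin 3) K) : (ℤ × ℤ) →₀ K :=
  ∑ s ∈ F.support, Finsupp.single ((s 0 : ℤ), (s 1 : ℤ)) (MvPolynomial.coeff s F)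

theorem lf_support {F : MvPolynomial (Fin 3) K} {d : ℕ} (hF : F.IsHomogeneous d) :
    (↑(lf F).support : Set (ℤ × ℤ)) ⊆ TT d := by
  classical
  intro m hm
  unfold lf at hm
  have h1 := Finsupp.support_finsetSum (Finset.mem_coe.1 hm)
  rw [Finset.mem_biUnion] at h1
  obtain ⟨s, hs, hms⟩ := h1
  have h2 := Finsupp.support_single_subset hms
  rw [Finset.mem_singleton] at h2
  have h3 := hF (MvPolynomial.mem_support_iff.1 hs)
  rw [Finsupp.weight_apply, Finsupp.sum_fintype _ _ (by simp), Fin.sum_univ_three] at h3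
  simp at h3
  subst h2
  refine ⟨by simp, by simp, ?_⟩
  simp only
  omega

theorem lf_apply {F : MvPolynomial (Fin 3) K} {d : ℕ} (hF : F.IsHomogeneous d) {s : Fin 3 →₀ ℕ}
    (hs : s ∈ F.support) : lf F ((s 0 : ℤ), (s 1 : ℤ)) = MvPolynomial.coeff s F := by
  classical
  have hdeg : ∀ s ∈ F.support, s 0 + s 1 + s 2 = d := by
    intro s hs
    have h3 := hF (MvPolynomial.mem_support_iff.1 hs)
    rw [Finsupp.weight_apply, Finsupp.sum_fintype _ _ (by simp), Fin.sum_univ_three] at h3
    simpa using h3
  unfold lf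
  rw [Finsupp.finsetSum_apply, Finset.sum_eq_single s]
  · simp
  · intro s' hs' hne
    rw [Finsupp.single_apply, if_neg]
    intro h
    apply hne
    rw [Prod.mk.injEq] at h
    obtain ⟨h1, h2⟩ := h
    have h1' : s' 0 = s 0 := by exact_mod_cast h1
    have h2' : s' 1 = s 1 := by exact_mod_cast h2
    have e1 := hdeg s hs
    have e2 := hdeg s' hs'
    ext k
    fin_cases k
    · exact h1'
    · exact h2'
    · show s' 2 = s 2
      omega
  · intro h; exact absurd hs h

theorem ev_lf (X Y : (PS K)ˣ) (F : MvPolynomial (Fin 3) K) :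
    ev X Y (lf F) = MvPolynomial.aeval ![(X : PS K), (Y : PS K), 1] F := by
  unfold lf
  rw [ev_sum, MvPolynomial.aeval_def, MvPolynomial.eval₂_eq']
  refine sum_congr rfl fun s _ => ?_
  rw [ev_single, Fin.prod_univ_three]
  simp only [zpow_natCast, Units.val_mul, Units.val_pow_eq_pow_val]
  simp [Algebra.smul_def]

end form

section
variable {ι : Type}

/-- forms instead of Laurent polynomials -/
theorem EmpW.form {t c : ι → ℝ} {d : ℕ} (h : EmpW t c (TT d)) :
    ∃ (K : Type) (_ : Field K) (_ : CharZero K) (X Y : ι → PS K),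
      (∀ i, dl (X i) ≠ 0 ∨ dl (Y i) ≠ 0) ∧
      ∀ F : MvPolynomial (Fin 3) K, F.IsHomogeneous d →
        (∀ i, Wt (t i) (c i) (MvPolynomial.aeval ![X i, Y i, 1] F)) → F = 0 := by
  obtain ⟨K, _, _, X, Y, hX, hf⟩ := h
  refine ⟨K, inferInstance, inferInstance, fun i => X i, fun i => Y i, fun i => ?_, ?_⟩
  · rw [dl_ne_iff, dl_ne_iff]; exact hX i
  · intro F hF hW
    have h1 := hf (lf F) (lf_support hF) (fun i => by rw [ev_lf]; exact hW i)
    by_contra hne
    obtain ⟨s, hs⟩ := (MvPolynomial.support_nonempty).2 hne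
    have h2 := lf_apply hF hs
    rw [h1] at h2
    exact (MvPolynomial.mem_support_iff.1 hs) (by rw [← h2]; rfl)

end

section lin
variable {K : Type} [Field K]

/-- a linear change of variables -/
noncomputable def lin (l x y : K) : MvPolynomial (Fin 3) K →ₐ[K] MvPolynomial (Fin 3) K :=
  MvPolynomial.aeval ![MvPolynomial.X 0 + MvPolynomial.C l * MvPolynomial.X 1 - MvPolynomial.C x * MvPolynomial.X 2,
    MvPolynomial.X 1 - MvPolynomial.C y * MvPolynomial.X 2, MvPolynomial.X 2]

theorem lin_homog (l x y : K) {F : MvPolynomial (Fin 3) K} {d : ℕ} (hF : F.IsHomogeneous d) :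
    (lin l x y F).IsHomogeneous d := by
  have h := hF.aeval (g := ![MvPolynomial.X 0 + MvPolynomial.C l * MvPolynomial.X 1 - MvPolynomial.C x * MvPolynomial.X 2,
    MvPolynomial.X 1 - MvPolynomial.C y * MvPolynomial.X 2, (MvPolynomial.X 2 : MvPolynomial (Fin 3) K)]) (n := 1) (by
    intro k
    have hX : ∀ j : Fin 3, (MvPolynomial.X j : MvPolynomial (Fin 3) K).IsHomogeneous 1 :=
      fun j => MvPolynomial.isHomogeneous_X K j
    have hC : ∀ (a : K) (j : Fin 3), (MvPolynomial.C a * MvPolynomial.X j : MvPolynomial (Fin 3) K).IsHomogeneous 1 := by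
      intro a j
      have := (MvPolynomial.isHomogeneous_C (Fin 3) a).mul (hX j)
      simpa using this
    fin_cases k
    · exact ((hX 0).add (hC l 1)).sub (hC x 2)
    · exact (hX 1).sub (hC y 2)
    · exact hX 2)
  rw [one_mul] at h
  exact h

theorem lin_inv (l x y : K) (F : MvPolynomial (Fin 3) K) :
    lin (-l) (-(x - l * y)) (-y) (lin l x y F) = F := by
  have : (lin (-l) (-(x - l * y)) (-y)).comp (lin l x y) = AlgHom.id K _ := by
    apply MvPolynomial.algHom_ext
    intro k
    rw [AlgHom.comp_apply, AlgHom.id_apply]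
    unfold lin
    fin_cases k
    · simp
      ring
    · simp
    · simp
  exact DFunLike.congr_fun this F

theorem lin_eq_zero {l x y : K} {F : MvPolynomial (Fin 3) K} (h : lin l x y F = 0) : F = 0 := by
  rw [← lin_inv l x y F, h, map_zero]

theorem aeval_lin (l x y : K) (A B : PS K) (F : MvPolynomial (Fin 3) K) :
    MvPolynomial.aeval ![A, B, 1] (lin l x y F) =
      MvPolynomial.aeval ![A + l • B - MvPowerSeries.C (σ := Fin 2) x, B - MvPowerSeries.C (σ := Fin 2) y, 1] F := by
  have : (MvPolynomial.aeval ![A, B, 1]).comp (lin l x y) =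
      (MvPolynomial.aeval ![A + l • B - MvPowerSeries.C (σ := Fin 2) x, B - MvPowerSeries.C (σ := Fin 2) y, 1] :
        MvPolynomial (Fin 3) K →ₐ[K] PS K) := by
    apply MvPolynomial.algHom_ext
    intro k
    rw [AlgHom.comp_apply]
    unfold lin
    fin_cases k
    · simp [MvPowerSeries.smul_eq_C_mul, MvPowerSeries.algebraMap_apply]
    · simp [MvPowerSeries.algebraMap_apply]
    · simp
  exact DFunLike.congr_fun this F

end lin

section graph
variable {K : Type} [Field K]

/-- restriction to `v = 0` -/
noncomputable def res : PS K →+* PowerSeries K where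
  toFun b := PowerSeries.mk fun n => MvPowerSeries.coeff (Finsupp.single 0 n) b
  map_one' := by
    classical
    ext n
    rw [PowerSeries.coeff_mk, MvPowerSeries.coeff_one, PowerSeries.coeff_one]
    simp
  map_zero' := by ext n; simp
  map_add' a b := by ext n; simp
  map_mul' a b := by
    classical
    ext n
    rw [PowerSeries.coeff_mk, PowerSeries.coeff_mul, MvPowerSeries.coeff_mul, Finsupp.antidiagonal_single]
    rw [Finset.sum_map]
    simp

theorem res_coeff (b : PS K) (n : ℕ) :
    PowerSeries.coeff n (res b) = MvPowerSeries.coeff (Finsupp.single 0 n) b := by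
  exact PowerSeries.coeff_mk (R := K) n (fun n => MvPowerSeries.coeff (Finsupp.single 0 n) b)

theorem Wt_of_res {t : ℝ} (ht : 0 ≤ t) {R : ℕ} (hR : t ≤ R) {b : PS K}
    (h : ∀ n < R, PowerSeries.coeff n (res b) = 0) : Wt t t b := by
  intro e he
  have h1 : e 1 = 0 := by
    by_contra hne
    have : (1 : ℝ) ≤ e 1 := by exact_mod_cast Nat.one_le_iff_ne_zero.2 hne
    have h2 : (0 : ℝ) ≤ e 0 := Nat.cast_nonneg _
    nlinarith
  rw [h1] at he
  have h2 : e 0 < R := by
    have : (e 0 : ℝ) < R := by push_cast at he; linarith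
    exact_mod_cast this
  have h3 := h _ h2
  rw [res_coeff] at h3
  have h4 : Finsupp.single 0 (e 0) = e := by
    ext k
    fin_cases k
    · simp
    · simp [h1]
  rwa [h4] at h3

theorem aeval_res (A : PS K) (g : Polynomial K) :
    res (Polynomial.aeval A g) = Polynomial.aeval (res A) g := by
  rw [Polynomial.aeval_def, Polynomial.aeval_def, Polynomial.hom_eval₂]
  congr 1
  ext a n
  classical
  have h1 : (algebraMap K (PS K)) a = MvPowerSeries.C a := rfl
  have h2 : (algebraMap K (PowerSeries K)) a = PowerSeries.C a := rfl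
  rw [RingHom.comp_apply, h1, h2, res_coeff, MvPowerSeries.coeff_C, PowerSeries.coeff_C]
  simp

/-- the curve germ is a graph up to any order -/
theorem exists_graph {A B : PS K} (hA : cc A = 0) (hA1 : dl A ≠ 0) (hB : cc B = 0) (R : ℕ) :
    ∃ g : Polynomial K, g.coeff 0 = 0 ∧
      ∀ n < R, PowerSeries.coeff n (res (B - Polynomial.aeval A g)) = 0 := by
  have hres0 : PowerSeries.constantCoeff (res A) = 0 := by
    rw [← PowerSeries.coeff_zero_eq_constantCoeff_apply, res_coeff]
    have : Finsupp.single (0 : Fin 2) 0 = 0 := by simp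
    rw [this, MvPowerSeries.coeff_zero_eq_constantCoeff_apply]
    exact hA
  obtain ⟨A', hA'⟩ := PowerSeries.X_dvd_iff.2 hres0
  have hA'0 : PowerSeries.constantCoeff A' = dl A := by
    have h1 : PowerSeries.coeff 1 (res A) = dl A := by rw [res_coeff]; rfl
    rw [hA', show (1 : ℕ) = 0 + 1 from rfl, PowerSeries.coeff_succ_X_mul,
      PowerSeries.coeff_zero_eq_constantCoeff_apply] at h1
    exact h1
  induction R with
  | zero => exact ⟨0, by simp, fun n hn => absurd hn (Nat.not_lt_zero n)⟩
  | succ R ih =>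
    obtain ⟨g, hg0, hg⟩ := ih
    rcases Nat.eq_zero_or_pos R with hR | hR
    · subst hR
      refine ⟨0, by simp, fun n hn => ?_⟩
      have : n = 0 := by omega
      subst this
      rw [map_zero, sub_zero, res_coeff]
      have : Finsupp.single (0 : Fin 2) 0 = 0 := by simp
      rw [this, MvPowerSeries.coeff_zero_eq_constantCoeff_apply]
      exact hB
    · obtain ⟨q, hq⟩ : ∃ q, q = PowerSeries.coeff R (res (B - Polynomial.aeval A g)) / (dl A) ^ R := ⟨_, rfl⟩
      refine ⟨g + Polynomial.C q * Polynomial.X ^ R, ?_, ?_⟩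
      · rw [Polynomial.coeff_add, hg0, Polynomial.coeff_C_mul, Polynomial.coeff_X_pow, if_neg (by omega)]
        simp
      · intro n hn
        have e1 : B - Polynomial.aeval A (g + Polynomial.C q * Polynomial.X ^ R) =
            (B - Polynomial.aeval A g) - q • A ^ R := by
          rw [map_add, map_mul, Polynomial.aeval_C, map_pow, Polynomial.aeval_X, Algebra.smul_def]
          ring
        have e2 : res (q • A ^ R) = PowerSeries.C q * (PowerSeries.X ^ R * A' ^ R) := by
          have h1 : q • A ^ R = Polynomial.aeval A (Polynomial.C q * Polynomial.X ^ R) := by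
            rw [map_mul, Polynomial.aeval_C, map_pow, Polynomial.aeval_X, Algebra.smul_def]
          rw [h1, aeval_res, map_mul, Polynomial.aeval_C, map_pow, Polynomial.aeval_X, hA', mul_pow]
          rfl
        have e3 : PowerSeries.coeff n (res (q • A ^ R)) = if n = R then q * (dl A) ^ R else 0 := by
          rw [e2, PowerSeries.coeff_C_mul, PowerSeries.coeff_X_pow_mul']
          by_cases h : n = R
          · rw [if_pos h, if_pos (by omega), h, Nat.sub_self,
              PowerSeries.coeff_zero_eq_constantCoeff_apply, map_pow, hA'0]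
          · rw [if_neg h, if_neg (by omega), mul_zero]
        rw [e1, map_sub, map_sub, e3]
        by_cases h : n = R
        · rw [if_pos h, h, hq, div_mul_cancel₀ _ (pow_ne_zero _ hA1), sub_self]
        · rw [if_neg h, hg n (by omega), sub_zero]

end graph

end Pool.Agent.TH183.QN
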