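import Pool.Agent.TH183.QN.Graph
import Pool.Agent.TH183.QT.Basic

/-! Emptiness for graphs of polynomials, and for generic germs. -/

namespace Pool.Agent.TH183.QN

open Finset Pool.Agent.TH176.Nag

section sub
variable {K : Type} [Field K]

theorem Wt_one {t : ℝ} (ht : 1 ≤ t) {A : PS K} (hA : cc A = 0) : Wt t 1 A := by
  intro e he
  have h0 : (0 : ℝ) ≤ e 0 := Nat.cast_nonneg _
  have h1 : e 1 = 0 := by
    by_contra hne
    have : (1 : ℝ) ≤ e 1 := by exact_mod_cast Nat.one_le_iff_ne_zero.2 hne
    nlinarith
  have h2 : e 0 = 0 := by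
    by_contra hne
    have : (1 : ℝ) ≤ e 0 := by exact_mod_cast Nat.one_le_iff_ne_zero.2 hne
    rw [h1] at he
    push_cast at he
    linarith
  have h3 : e = 0 := by
    ext k
    fin_cases k
    · exact h2
    · exact h1
  rw [h3, MvPowerSeries.coeff_zero_eq_constantCoeff_apply]
  exact hA

/-- substitution of power series in a polynomial in two variables -/
noncomputable def sb (A B : PS K) : Polynomial (Polynomial K) →+* PS K :=
  Polynomial.eval₂RingHom ((Polynomial.aeval A : Polynomial K →ₐ[K] PS K) : Polynomial K →+* PS K) B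

theorem sb_Wt {A B : PS K} {t c : ℝ} (ht : 1 ≤ t) (hA : cc A = 0) (hB : Wt t t B)
    (G : Polynomial (Polynomial K))
    (hG : ∀ j l : ℕ, (j : ℝ) + t * l < c → (G.coeff l).coeff j = 0) : Wt t c (sb A B G) := by
  unfold sb
  rw [Polynomial.coe_eval₂RingHom, Polynomial.eval₂_eq_sum_range]
  apply Wt.sum
  intro l _
  have h1 : ((Polynomial.aeval A : Polynomial K →ₐ[K] PS K) : Polynomial K →+* PS K) (G.coeff l) =
      ∑ j ∈ range ((G.coeff l).natDegree + 1), (G.coeff l).coeff j • A ^ j := by
    show Polynomial.aeval A (G.coeff l) = _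
    rw [Polynomial.aeval_eq_sum_range]
  rw [h1, sum_mul]
  apply Wt.sum
  intro j _
  rw [smul_mul_assoc]
  rcases lt_or_ge ((j : ℝ) + t * l) c with h | h
  · rw [hG j l h, zero_smul]
    exact Wt.zero t c
  · apply Wt.smul
    have h2 := (Wt.pow (by linarith) (Wt_one ht hA) j).mul (Wt.pow (by linarith) hB l)
    refine h2.mono ?_
    linarith

theorem sb_aeval (A B : PS K) (x y : K) (g : Polynomial K) (F : MvPolynomial (Fin 3) K) :
    sb A (B - Polynomial.aeval A g) (MvPolynomial.aeval
      ![Polynomial.C (Polynomial.C x + Polynomial.X),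
        Polynomial.C (Polynomial.C y + g) + Polynomial.X, 1] F) =
      MvPolynomial.aeval ![MvPowerSeries.C (σ := Fin 2) x + A, MvPowerSeries.C (σ := Fin 2) y + B, 1] F := by
  rw [MvPolynomial.aeval_def, MvPolynomial.aeval_def, MvPolynomial.eval₂_comp_left]
  congr 1
  · ext a
    simp [sb]
  · funext k
    unfold sb
    fin_cases k
    · simp [MvPowerSeries.algebraMap_apply]
    · simp [MvPowerSeries.algebraMap_apply]
    · simp

end sub

/-- emptiness for graphs of polynomials -/
theorem EmpW.graph {ι : Type} [Finite ι] {t c : ι → ℝ} (ht : ∀ i, 1 ≤ t i) {d : ℕ}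
    (h : EmpW t c (TT d)) :
    ∃ (K : Type) (_ : Field K) (_ : CharZero K) (x y : ι → K) (g : ι → Polynomial K),
      (∀ i, (g i).coeff 0 = 0) ∧
      ∀ F : MvPolynomial (Fin 3) K, F.IsHomogeneous d →
        (∀ i, ∀ j l : ℕ, (j : ℝ) + t i * l < c i →
          ((MvPolynomial.aeval ![Polynomial.C (Polynomial.C (x i) + Polynomial.X),
            Polynomial.C (Polynomial.C (y i) + g i) + Polynomial.X, 1] F).coeff l).coeff j = 0) →
        F = 0 := by
  classical
  obtain ⟨K, _, _, X, Y, hXY, hF⟩ := h.form
  have : Fintype ι := Fintype.ofFinite ι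
  obtain ⟨s, hs⟩ := Infinite.exists_notMem_finset (univ.image fun i => -dl (X i) / dl (Y i))
  have hs' : ∀ i, dl (X i) + s * dl (Y i) ≠ 0 := by
    intro i h0
    rcases eq_or_ne (dl (Y i)) 0 with h1 | h1
    · rw [h1, mul_zero, add_zero] at h0
      rcases hXY i with h2 | h2
      · exact h2 h0
      · exact h2 h1
    · apply hs
      rw [mem_image]
      refine ⟨i, mem_univ i, ?_⟩
      rw [div_eq_iff h1]
      linear_combination -h0
  let x : ι → K := fun i => cc (X i + s • Y i)
  let y : ι → K := fun i => cc (Y i)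
  let A : ι → PS K := fun i => X i + s • Y i - MvPowerSeries.C (σ := Fin 2) (x i)
  let B : ι → PS K := fun i => Y i - MvPowerSeries.C (σ := Fin 2) (y i)
  have hA : ∀ i, cc (A i) = 0 := by
    intro i
    simp only [A, x]
    unfold cc
    rw [map_sub, MvPowerSeries.constantCoeff_C, sub_self]
  have hB : ∀ i, cc (B i) = 0 := by
    intro i
    simp only [B, y]
    unfold cc
    rw [map_sub, MvPowerSeries.constantCoeff_C, sub_self]
  have hA1 : ∀ i, dl (A i) ≠ 0 := by
    intro i
    have h1 : dl (A i) = dl (X i) + s * dl (Y i) := by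
      simp only [A]
      rw [sub_eq_add_neg, ← map_neg, dl_add, dl_add, dl_C, add_zero]
      congr 1
    rw [h1]
    exact hs' i
  choose g hg0 hg using fun i => exists_graph (hA i) (hA1 i) (hB i) ⌈t i⌉₊
  refine ⟨K, inferInstance, inferInstance, x, y, g, hg0, fun F hFd hW => ?_⟩
  apply lin_eq_zero (l := s) (x := 0) (y := 0)
  apply hF _ (lin_homog _ _ _ hFd)
  intro i
  rw [aeval_lin]
  have e1 : X i + s • Y i - MvPowerSeries.C (σ := Fin 2) (0 : K) = MvPowerSeries.C (σ := Fin 2) (x i) + A i := by
    simp only [A]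
    rw [map_zero]
    ring
  have e2 : Y i - MvPowerSeries.C (σ := Fin 2) (0 : K) = MvPowerSeries.C (σ := Fin 2) (y i) + B i := by
    simp only [B]
    rw [map_zero]
    ring
  rw [e1, e2, ← sb_aeval (A i) (B i) (x i) (y i) (g i) F]
  exact sb_Wt (ht i) (hA i) (Wt_of_res (by linarith [ht i]) (Nat.le_ceil _) (hg i)) _ (hW i)

section one
variable {K : Type} [Field K]

theorem aeval_lin' (x y : K) (g : Polynomial K) (F : MvPolynomial (Fin 3) K) :
    MvPolynomial.aeval ![Polynomial.C (Polynomial.C x + Polynomial.X),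
        Polynomial.C (Polynomial.C y + g) + Polynomial.X, 1] (lin 0 x y F) =
      MvPolynomial.aeval ![Polynomial.C Polynomial.X, Polynomial.C g + Polynomial.X,
        (1 : Polynomial (Polynomial K))] F := by
  have : (MvPolynomial.aeval ![Polynomial.C (Polynomial.C x + Polynomial.X),
        Polynomial.C (Polynomial.C y + g) + Polynomial.X, (1 : Polynomial (Polynomial K))]).comp (lin 0 x y) =
      (MvPolynomial.aeval ![Polynomial.C Polynomial.X, Polynomial.C g + Polynomial.X,
        (1 : Polynomial (Polynomial K))] : MvPolynomial (Fin 3) K →ₐ[K] Polynomial (Polynomial K)) := by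
    apply MvPolynomial.algHom_ext
    intro k
    rw [AlgHom.comp_apply]
    unfold lin
    have hC : ∀ a : K, (algebraMap K (Polynomial (Polynomial K))) a = Polynomial.C (Polynomial.C a) := fun a => rfl
    fin_cases k
    · simp [hC]
    · simp [hC]
      ring
    · simp
  exact DFunLike.congr_fun this F

/-- the expansion along the graph of a polynomial, as power series -/
theorem expand_eq {g : Polynomial K} (hg : g.coeff 0 = 0) (F : MvPolynomial (Fin 3) K) (j l : ℕ) :
    PowerSeries.coeff j ((QT.expand (fun k => g.coeff (k + 1)) F).coeff l) =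
      ((MvPolynomial.aeval ![Polynomial.C Polynomial.X, Polynomial.C g + Polynomial.X,
        (1 : Polynomial (Polynomial K))] F).coeff l).coeff j := by
  have hmap : QT.expand (fun k => g.coeff (k + 1)) F =
      Polynomial.map (Polynomial.coeToPowerSeries.ringHom (R := K))
        (MvPolynomial.aeval ![Polynomial.C Polynomial.X, Polynomial.C g + Polynomial.X,
          (1 : Polynomial (Polynomial K))] F) := by
    unfold QT.expand
    rw [MvPolynomial.aeval_def, MvPolynomial.aeval_def, ← Polynomial.coe_mapRingHom,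
      MvPolynomial.eval₂_comp_left]
    congr 1
    · ext a n m
      have h1 : (algebraMap K (Polynomial (PowerSeries K))) a = Polynomial.C (PowerSeries.C a) := rfl
      have h2 : (algebraMap K (Polynomial (Polynomial K))) a = Polynomial.C (Polynomial.C a) := rfl
      rw [RingHom.comp_apply, h1, h2, Polynomial.coe_mapRingHom, Polynomial.map_C]
      simp
    · have hg' : PowerSeries.X * PowerSeries.mk (fun k => g.coeff (k + 1)) = (g : PowerSeries K) := by
        ext n
        cases n with
        | zero => simp [hg]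
        | succ n =>
          rw [PowerSeries.coeff_succ_X_mul, PowerSeries.coeff_mk, Polynomial.coeff_coe]
      funext k
      rw [hg']
      fin_cases k
      · simp
      · simp
      · simp
  rw [hmap, Polynomial.coeff_map]
  simp

end one

/-- emptiness for one germ at the origin -/
theorem EmpW.germ {t B : ℝ} (ht : 1 ≤ t) {d : ℕ} (h : EmpW (fun _ : Unit => t) (fun _ => B) (TT d)) :
    ∃ (K : Type) (_ : Field K) (_ : CharZero K) (c : ℕ → K),
      ∀ v : QT.exps d → K, (∀ i j : ℕ, (i : ℝ) + t * j < B → ∑ m : QT.exps d, v m * QT.ent c m.1 i j = 0) →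
        v = 0 := by
  classical
  obtain ⟨K, _, _, x, y, g, hg0, hF⟩ := EmpW.graph (fun _ => ht) h
  refine ⟨K, inferInstance, inferInstance, fun k => (g ()).coeff (k + 1), fun v hv => ?_⟩
  obtain ⟨F, hFdef⟩ : ∃ F : MvPolynomial (Fin 3) K, F = ∑ m : QT.exps d, MvPolynomial.monomial m.1 (v m) := ⟨_, rfl⟩
  have hFd : F.IsHomogeneous d := by
    rw [hFdef]
    apply MvPolynomial.IsHomogeneous.sum
    intro m _
    exact MvPolynomial.isHomogeneous_monomial _ (QT.mem_exps.1 m.2)
  have hFc : ∀ m : QT.exps d, MvPolynomial.coeff m.1 F = v m := by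
    intro m
    rw [hFdef, MvPolynomial.coeff_sum, Finset.sum_eq_single m]
    · rw [MvPolynomial.coeff_monomial, if_pos rfl]
    · intro m' _ hne
      rw [MvPolynomial.coeff_monomial, if_neg]
      exact fun h => hne (Subtype.ext h)
    · intro h; exact absurd (Finset.mem_univ m) h
  have h0 : F = 0 := by
    apply lin_eq_zero (l := 0) (x := x ()) (y := y ())
    apply hF _ (lin_homog _ _ _ hFd)
    rintro ⟨⟩ j l hjl
    rw [aeval_lin', ← expand_eq (hg0 ()), QT.coeff_expand_form _ hFd]
    rw [← hv j l hjl]
    exact Finset.sum_congr rfl fun m _ => by rw [hFc]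
  funext m
  rw [← hFc m, h0]
  simp

end Pool.Agent.TH183.QN
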