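import Pool.Agent.TH183.QN.Flat

/-! Roots of units and sublattices of exponents. -/

namespace Pool.Agent.TH183.QN

open Finset Pool.Agent.TH176.Nag

section root
variable {K : Type} [Field K] [CharZero K]

theorem binom_pow (r : ℚ) (n : ℕ) :
    PowerSeries.binomialSeries K (n * r) = (PowerSeries.binomialSeries K r) ^ n := by
  induction n with
  | zero => simp
  | succ n ih =>
    rw [pow_succ, ← ih, ← PowerSeries.binomialSeries_add]
    congr 1
    push_cast
    ring

theorem exists_root_one {g : PS K} (hg : cc g = 1) {D : ℕ} (hD : 0 < D) : ∃ h : PS K, h ^ D = g := by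
  have ha : PowerSeries.HasSubst (g - 1 : PS K) := by
    apply PowerSeries.HasSubst.of_constantCoeff_zero
    rw [map_sub, map_one]
    unfold cc at hg
    rw [hg, sub_self]
  refine ⟨PowerSeries.subst (g - 1) (PowerSeries.binomialSeries K (1 / D : ℚ)), ?_⟩
  rw [← PowerSeries.subst_pow ha, ← binom_pow]
  have e : ((D : ℚ) * (1 / D)) = ((1 : ℕ) : ℚ) := by
    have : (D : ℚ) ≠ 0 := by exact_mod_cast hD.ne'
    field_simp
    norm_num
  rw [e, PowerSeries.binomialSeries_nat, pow_one, PowerSeries.subst_add ha, PowerSeries.subst_X ha]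
  have : PowerSeries.subst (g - 1) (1 : PowerSeries K) = (1 : PS K) := by
    rw [← PowerSeries.coe_substAlgHom ha, map_one]
  rw [this]
  ring

theorem exists_root [IsAlgClosed K] (X : (PS K)ˣ) {D : ℕ} (hD : 0 < D) : ∃ Z : (PS K)ˣ, Z ^ D = X := by
  have hX := cc_unit_ne_zero X
  obtain ⟨r, hr⟩ := IsAlgClosed.exists_pow_nat_eq (cc (X : PS K)) hD
  obtain ⟨h, hh⟩ := exists_root_one (K := K) (g := (cc (X : PS K))⁻¹ • (X : PS K)) (by
    unfold cc
    rw [← MvPowerSeries.coeff_zero_eq_constantCoeff_apply, MvPowerSeries.coeff_smul,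
      MvPowerSeries.coeff_zero_eq_constantCoeff_apply]
    exact inv_mul_cancel₀ hX) hD
  have h1 : (r • h) ^ D = (X : PS K) := by
    rw [smul_pow, hh, hr, smul_smul, mul_inv_cancel₀ hX, one_smul]
  have h2 : IsUnit (r • h) := by
    have : IsUnit ((r • h) ^ D) := by rw [h1]; exact X.isUnit
    exact (isUnit_pow_iff hD.ne').1 this
  refine ⟨h2.unit, ?_⟩
  apply Units.ext
  rw [Units.val_pow_eq_pow_val]
  exact h1

end root

section sub
variable {ι : Type} {t c : ι → ℝ}

/-- the emptiness may be moved to an algebraically closed field -/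
theorem EmpW.algClosed {S : Set (ℤ × ℤ)} (h : EmpW t c S) :
    ∃ (K : Type) (_ : Field K) (_ : CharZero K) (_ : IsAlgClosed K) (X Y : ι → (PS K)ˣ),
      (∀ i, ld (X i) ≠ 0 ∨ ld (Y i) ≠ 0) ∧
      ∀ f : (ℤ × ℤ) →₀ K, (↑f.support : Set (ℤ × ℤ)) ⊆ S →
        (∀ i, Wt (t i) (c i) (ev (X i) (Y i) f)) → f = 0 := by
  obtain ⟨K, _, _, X, Y, hX, hf⟩ := h
  refine ⟨AlgebraicClosure K, inferInstance, inferInstance, inferInstance,
    fun i => mu (algebraMap K (AlgebraicClosure K)) (X i),
    fun i => mu (algebraMap K (AlgebraicClosure K)) (Y i), fun i => ?_, ?_⟩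
  · rw [ld_mu, ld_mu]
    rcases hX i with h | h
    · left; simpa using h
    · right; simpa using h
  intro f hfS hfL
  ext1 m
  by_contra hm
  have h1 : ¬ ∀ φ : Module.Dual K (AlgebraicClosure K), φ (f m) = 0 := by
    rw [Module.forall_dual_apply_eq_zero_iff]
    simpa using hm
  push Not at h1
  obtain ⟨φ, hφ⟩ := h1
  have h2 : f.mapRange (φ : AlgebraicClosure K →+ K) (map_zero _) = 0 := by
    apply hf
    · intro m' hm'
      apply hfS
      have := Finsupp.support_mapRange hm'
      exact this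
    · intro i
      refine Wt_linear (algebraMap K (AlgebraicClosure K)) (φ : AlgebraicClosure K →+ K) ?_ (hfL i)
      intro g c
      have : g * algebraMap K (AlgebraicClosure K) c = c • g := by rw [Algebra.smul_def, mul_comm]
      rw [this]
      simp [mul_comm]
  apply hφ
  have := DFunLike.congr_fun h2 m
  simpa using this

/-- the emptiness for exponents in a sublattice -/
theorem EmpW.sub (ht : ∀ i, 0 ≤ t i) {S : Set (ℤ × ℤ)} (h : EmpW t c S) (p q r s u v : ℤ)
    (hdet : 0 < p * s - q * r) :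
    EmpW t c {m | ∃ n ∈ S, m = (p * n.1 + q * n.2 + u, r * n.1 + s * n.2 + v)} := by
  obtain ⟨K, _, _, _, X, Y, hXY, hf⟩ := h.algClosed
  obtain ⟨D, hD⟩ : ∃ D : ℕ, (D : ℤ) = p * s - q * r := ⟨(p * s - q * r).toNat, by omega⟩
  have hD0 : 0 < D := by omega
  have hrt : ∀ z : (PS K)ˣ, ∃ z' : (PS K)ˣ, z' ^ D = z := fun z => exists_root z hD0
  choose rt hrt using hrt
  let x : ι → (PS K)ˣ := fun i => rt (X i) ^ s * rt (Y i) ^ (-r)
  let y : ι → (PS K)ˣ := fun i => rt (X i) ^ (-q) * rt (Y i) ^ p
  have e1 : ∀ i, x i ^ p * y i ^ r = X i := by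
    intro i
    simp only [x, y]
    rw [mul_zpow, mul_zpow, ← zpow_mul, ← zpow_mul, ← zpow_mul, ← zpow_mul, mul_mul_mul_comm,
      ← zpow_add, ← zpow_add]
    have a1 : s * p + -q * r = (D : ℤ) := by rw [hD]; ring
    have a2 : -r * p + p * r = 0 := by ring
    rw [a1, a2, zpow_natCast, hrt, zpow_zero, mul_one]
  have e2 : ∀ i, x i ^ q * y i ^ s = Y i := by
    intro i
    simp only [x, y]
    rw [mul_zpow, mul_zpow, ← zpow_mul, ← zpow_mul, ← zpow_mul, ← zpow_mul, mul_mul_mul_comm,
      ← zpow_add, ← zpow_add]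
    have a1 : s * q + -q * s = 0 := by ring
    have a2 : -r * q + p * s = (D : ℤ) := by rw [hD]; ring
    rw [a1, a2, zpow_natCast, hrt, zpow_zero, one_mul]
  clear_value x y
  refine ⟨K, inferInstance, inferInstance, x, y, fun i => ?_, ?_⟩
  · by_contra hcon
    push Not at hcon
    obtain ⟨h1, h2⟩ := hcon
    have b1 : ld (X i) = 0 := by
      rw [← e1 i, ld_mul, ld_zpow, ld_zpow, h1, h2]; ring
    have b2 : ld (Y i) = 0 := by
      rw [← e2 i, ld_mul, ld_zpow, ld_zpow, h1, h2]; ring
    rcases hXY i with h | h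
    · exact h b1
    · exact h b2
  intro f hfS hfL
  classical
  -- the inverse relabelling
  have hch : ∀ m ∈ f.support, ∃ n ∈ S, m = (p * n.1 + q * n.2 + u, r * n.1 + s * n.2 + v) :=
    fun m hm => hfS hm
  let φ : ℤ × ℤ → ℤ × ℤ := fun m => if hm : m ∈ f.support then (hch m hm).choose else 0
  have hφ : ∀ m ∈ f.support, φ m ∈ S ∧ m = (p * (φ m).1 + q * (φ m).2 + u, r * (φ m).1 + s * (φ m).2 + v) := by
    intro m hm
    have := (hch m hm).choose_spec
    simp only [φ, dif_pos hm]
    exact this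
  have hinj : Set.InjOn φ f.support := by
    intro m hm m' hm' he
    rw [(hφ m hm).2, (hφ m' hm').2, he]
  have h1 : f.mapDomain φ = 0 := by
    apply hf
    · intro m hm
      have := Finsupp.mapDomain_support hm
      simp only [Finset.mem_image] at this
      obtain ⟨m', hm', rfl⟩ := this
      exact (hφ m' hm').1
    · intro i
      have e3 : ev (X i) (Y i) (f.mapDomain φ) =
          ((x i ^ (-u) * y i ^ (-v) : (PS K)ˣ) : PS K) * ev (x i) (y i) f := by
        unfold ev
        rw [Finsupp.sum_mapDomain_index (by simp) (by intro m a b; rw [add_smul]), Finsupp.sum,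
          Finsupp.sum, mul_sum]
        refine sum_congr rfl fun m hm => ?_
        rw [mul_smul_comm, ← Units.val_mul]
        congr 2
        have hm2 := (hφ m hm).2
        have a1 : m.1 = p * (φ m).1 + q * (φ m).2 + u := congrArg Prod.fst hm2
        have a2 : m.2 = r * (φ m).1 + s * (φ m).2 + v := congrArg Prod.snd hm2
        have b1 : -u + m.1 = p * (φ m).1 + q * (φ m).2 := by rw [a1]; ring
        have b2 : -v + m.2 = r * (φ m).1 + s * (φ m).2 := by rw [a2]; ring
        rw [mul_mul_mul_comm, ← zpow_add, ← zpow_add, b1, b2, ← e1 i, ← e2 i, mul_zpow, mul_zpow,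
          ← zpow_mul, ← zpow_mul, ← zpow_mul, ← zpow_mul, zpow_add, zpow_add]
        exact mul_mul_mul_comm _ _ _ _
      rw [e3]
      exact (hfL i).mul_left (ht i) _
  -- back to f
  by_contra hne
  obtain ⟨m, hm⟩ := Finsupp.support_nonempty_iff.2 hne
  have h2 : f.mapDomain φ (φ m) = f m := by
    rw [Finsupp.mapDomain, Finsupp.sum, Finsupp.coe_finsetSum, Finset.sum_apply,
      Finset.sum_eq_single m]
    · simp
    · intro m' hm' hne'
      rw [Finsupp.single_apply, if_neg]
      intro he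
      exact hne' (hinj hm' hm he)
    · intro h; exact absurd hm h
  rw [h1] at h2
  exact (Finsupp.mem_support_iff.1 hm) (by rw [← h2]; simp)

end sub

end Pool.Agent.TH183.QN
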