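import Pool.Agent.TH183.QN.Chart

/-! Emptiness for quasimonomial valuations is a system in the sense of `TH181.Nag.Sys`. -/

namespace Pool.Agent.TH183.QN

open Finset Pool.Agent.TH176.Nag Pool.Agent.TH181.NagM

section
variable {ι : Type} {tw c : ι → ℝ}

theorem EmpW.chart (htw : ∀ i, 0 ≤ tw i) {N : ℕ} (hN : 3 ≤ N) (t e : ℕ)
    (h : EmpW tw c (S3 N (t + 2) e)) : EmpW tw c (WP N e) := by
  obtain ⟨K, _, _, X, Y, hXY, hf⟩ := h
  let A : ι → (PS (LaurentSeries K))ˣ := fun i =>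
    tu K * mu (HahnSeries.C : K →+* LaurentSeries K) (X i)
  let B : ι → (PS (LaurentSeries K))ˣ := fun i =>
    tu K * mu (HahnSeries.C : K →+* LaurentSeries K) (Y i)
  have hA : ∀ i, cc (A i : PS (LaurentSeries K)) = tv K * cst (cc (X i : PS K)) := by
    intro i; rw [cc_tu, cc_mu]
  have hB : ∀ i, cc (B i : PS (LaurentSeries K)) = tv K * cst (cc (Y i : PS K)) := by
    intro i; rw [cc_tu, cc_mu]
  have hne : ∀ i, cc (s0 N (t + 2) (zP N (A i) (B i))) ≠ 0 ∧ cc (s1 N (t + 2) (zP N (A i) (B i))) ≠ 0 ∧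
      cc (s2 N (t + 2) (zP N (A i) (B i))) ≠ 0 := by
    intro i
    rw [cc_s0, cc_s1, cc_s2, hA, hB]
    exact s012_ne hN (cc_unit_ne_zero (X i)) (cc_unit_ne_zero (Y i)) t
  have hcc : ∀ i, ∀ l, cc ((stp N)^[l] (zP N (A i) (B i))).2.1 ≠ 0 := by
    intro i l
    have h1 := congrArg (fun z : LaurentSeries K × LaurentSeries K × LaurentSeries K × LaurentSeries K => z.2.1)
      (cc_iter N (A i) (B i) l)
    simp only at h1
    rw [h1, hA, hB]
    exact (iter_order hN (cc_unit_ne_zero (X i)) (cc_unit_ne_zero (Y i)) l).2.1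
  refine ⟨LaurentSeries K, inferInstance, inferInstance,
    fun i => uo _ (hne i).2.1 * (uo _ (hne i).1)⁻¹,
    fun i => uo _ (hne i).2.2 * (uo _ (hne i).1 ^ (N - 2))⁻¹, fun i => ?_, ?_⟩
  · by_contra hcon
    push Not at hcon
    obtain ⟨h1, h2⟩ := hcon
    obtain ⟨h3, h4⟩ := dl_s012 (by omega) (A i) (B i) (t + 2) (hne i).1 (hne i).2.1 (hne i).2.2
      (fun l _ => hcc i l) h1 h2
    have h3' : dl (X i : PS K) = 0 := by
      have h5 : tv K * cst (dl (X i : PS K)) = 0 := by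
        rw [← h3]
        show _ = dl ((tu K * mu (HahnSeries.C : K →+* LaurentSeries K) (X i) :
          (PS (LaurentSeries K))ˣ) : PS (LaurentSeries K))
        rw [dl_tu, dl_mu]
      by_contra h6
      exact (order_cst h6).1 h5
    have h4' : dl (Y i : PS K) = 0 := by
      have h5 : tv K * cst (dl (Y i : PS K)) = 0 := by
        rw [← h4]
        show _ = dl ((tu K * mu (HahnSeries.C : K →+* LaurentSeries K) (Y i) :
          (PS (LaurentSeries K))ˣ) : PS (LaurentSeries K))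
        rw [dl_tu, dl_mu]
      by_contra h6
      exact (order_cst h6).1 h5
    rcases hXY i with h | h
    · exact (dl_ne_iff _).2 h h3'
    · exact (dl_ne_iff _).2 h h4'
  intro f hfS hfL
  by_contra hf0
  -- the support in natural form
  have hsup : ∀ m ∈ f.support, 0 ≤ m.1 ∧ 0 ≤ m.2 ∧ m.1 + ((N - 2 : ℕ) : ℤ) * m.2 ≤ (((N - 2) * e : ℕ) : ℤ) := by
    intro m hm
    obtain ⟨h1, h2, h3⟩ := hfS hm
    refine ⟨h1, h2, ?_⟩
    obtain ⟨M, rfl⟩ : ∃ M, N = M + 2 := ⟨N - 2, by omega⟩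
    simp only [Nat.add_sub_cancel]
    push_cast at h3 ⊢
    linarith
  have hg0 : pb N (t + 2) e f ≠ 0 := by
    intro h
    exact hf0 (Pool.Agent.TH543.NagJ.comp_inj hN (t + 2) hsup h)
  have hLM : ∀ i, Wt (tw i) (c i) (ev (A i) (B i) (pb N (t + 2) e f).coeff) := by
    intro i
    rw [← evA_apply, evA_pb (A i) (B i) (hne i).1 (hne i).2.1 (hne i).2.2 hsup]
    exact (hfL i).mul_left (htw i) _
  set g := pb N (t + 2) e f with hg
  have hDg := pb_Dg hN (t + 2) e hfS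
  rw [← hg] at hDg
  have hadj := pb_adjoin N (t + 2) e f
  rw [← hg] at hadj
  have hgc : g.coeff ≠ 0 := by
    intro h
    apply hg0
    ext m
    rw [h]; rfl
  have hsc : scl g.coeff ≠ 0 := by
    intro h
    apply hgc
    rw [← Finsupp.support_eq_empty, ← scl_support, h, Finsupp.support_zero]
  obtain ⟨n, hn1, hn2, hn3⟩ := exists_lead hsc
  apply hn1
  apply hf
  · intro m hm
    have hm' : (scl g.coeff m).coeff n ≠ 0 := by simpa using hm
    obtain ⟨h1, h2⟩ := hn3 m hm'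
    have h3 : m ∈ g.coeff.support := by
      rw [← scl_support]; exact Finsupp.mem_support_iff.2 h1
    have h3' := Finsupp.mem_support_iff.1 h3
    obtain ⟨h4, l, hl⟩ := hDg m h3
    have hN' : (3 : ℤ) ≤ N := by exact_mod_cast hN
    have hl0 : 0 ≤ l := by
      have : (0 : ℤ) ≤ N * l := by rw [← hl]; linarith
      nlinarith
    have hmin : ∀ m' ∈ g.coeff.support, (g.coeff m).order + (m.1 + m.2) ≤
        (g.coeff m').order + (m'.1 + m'.2) := by
      intro m' hm''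
      rw [← scl_order h3', ← scl_order (Finsupp.mem_support_iff.1 hm''), h2]
      by_contra hlt
      have h5 := hn2 m' _ (not_le.1 hlt)
      have h6 : scl g.coeff m' ≠ 0 := by
        rw [← Finsupp.mem_support_iff, scl_support]; exact hm''
      exact h6 (HahnSeries.coeff_order_eq_zero.1 h5)
    have hg1 := gs_pos hN' (t + 2)
    have hg2 := gs_pos hN' (t + 2 + 1)
    refine ⟨l, hl0, by linarith, ?_, ?_⟩
    · rcases le_or_gt 0 m.1 with h7 | h7
      · positivity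
      · obtain ⟨j, hj1, hj2⟩ := Pool.Agent.TH494.NagG.lowest_left (by omega) g hadj m h3' h7 hmin
        obtain ⟨h8, -⟩ := hDg (m.1, j) (Finsupp.mem_support_iff.2 hj2)
        simp only at h8
        have h9 : (m.2 - N * m.1) * gs N (t + 2 + 1) ≤ j * gs N (t + 2 + 1) :=
          mul_le_mul_of_nonneg_right hj1 hg2.le
        have h10 : 0 ≤ (N : ℤ) * (m.1 * gs N (t + 2 + 1) + l) := by nlinarith
        exact nonneg_of_mul_nonneg_right h10 (by omega)
    · rcases le_or_gt 0 m.2 with h7 | h7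
      · positivity
      · obtain ⟨j, hj1, hj2⟩ := Pool.Agent.TH494.NagG.lowest_right (by omega) g hadj m h3' h7 hmin
        obtain ⟨h8, -⟩ := hDg (j, m.2) (Finsupp.mem_support_iff.2 hj2)
        simp only at h8
        have h9 : (m.1 - N * m.2) * gs N (t + 2) ≤ j * gs N (t + 2) :=
          mul_le_mul_of_nonneg_right hj1 hg1.le
        have h10 : 0 ≤ (N : ℤ) * (m.2 * gs N (t + 2) + l) := by nlinarith
        exact nonneg_of_mul_nonneg_right h10 (by omega)
  · intro i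
    apply Wt_coeff
    rw [← ev_scl]
    exact hLM i

theorem EmpW.Q3 (htw : ∀ i, 0 ≤ tw i) {N : ℕ} (hN : 3 ≤ N) (t e : ℕ)
    (h : EmpW tw c (Q3 N (t + 2) e)) : EmpW tw c (WP N e) := by
  apply EmpW.chart htw hN t e
  have hN' : (3 : ℤ) ≤ N := by exact_mod_cast hN
  obtain ⟨c, hc⟩ := (gs_mod (N := (N : ℤ)) (t + 1)).1
  obtain ⟨a, ha⟩ := (gs_mod (N := (N : ℤ)) (t + 2)).1
  obtain ⟨b, hb⟩ := (gs_mod (N := (N : ℤ)) (t + 2)).2
  have hrec1 : gs N (t + 1 + 2) = N * gs N (t + 1 + 1) - gs N (t + 1) := gs_two (t + 1)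
  have hrec2 : gs N (t + 2 + 2) = N * gs N (t + 2 + 1) - gs N (t + 2) := gs_two (t + 2)
  have hmk := gs_markov (N := (N : ℤ)) (t + 2)
  set g0 := gs N (t + 1) with hg0
  set g1 := gs N (t + 2) with hg1
  set g2 := gs N (t + 3) with hg2
  set g3 := gs N (t + 4) with hg3
  have hrec1' : g2 = N * g1 - g0 := hrec1
  have hrec2' : g3 = N * g2 - g1 := hrec2
  have hmk' : g1 ^ 2 + g2 ^ 2 + (N - 2) = N * g1 * g2 := hmk
  have hb' : g2 - 1 = (N - 2) * b := hb
  -- (g2 - g0)/M and (g3 - g1)/M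
  obtain ⟨f1, hf1⟩ : ∃ f1 : ℤ, g2 - g0 = (N - 2) * f1 := ⟨b - c, by linear_combination hb' - hc⟩
  obtain ⟨f2, hf2⟩ : ∃ f2 : ℤ, g3 - g1 = (N - 2) * f2 := by
    refine ⟨(N : ℤ) * b + 1 - 2 * a, ?_⟩
    rw [hrec2']
    linear_combination (N : ℤ) * hb' - 2 * ha
  have hM : (0 : ℤ) < N - 2 := by omega
  have hp1 : g0 * g2 = g1 ^ 2 + (N - 2) := by rw [hrec1']; rw [hrec1'] at hmk'; linear_combination -hmk'
  have hp2 : g1 * g3 = g2 ^ 2 + (N - 2) := by rw [hrec2']; linear_combination -hmk'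
  have hdet : g0 * f2 - f1 * g1 = N := by
    have : (N - 2 : ℤ) * (g0 * f2 - f1 * g1) = (N - 2) * N := by
      linear_combination -g0 * hf2 + g1 * hf1 + g0 * hrec2' + N * hp1 - g1 * hrec1'
    exact mul_left_cancel₀ hM.ne' this
  refine (h.sub htw g0 f1 g1 f2 (-(e : ℤ) * g1) (-(e : ℤ) * g2) (by linarith)).mono ?_
  rintro m ⟨l, hl0, hl1, hl2, hl3⟩
  have hl1' : (N : ℤ) * l + m.1 * g1 + m.2 * g2 = (N - 2) * e := hl1
  have hl2' : 0 ≤ m.1 * g2 + l := hl2
  have hl3' : 0 ≤ m.2 * g1 + l := hl3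
  have hα : ((N : ℤ) - 2) * (e - l - m.1 * a - m.2 * b + m.1 * b + m.2 * a) = m.1 * g2 + 2 * l + m.2 * g1 := by
    linear_combination -hl1' + m.1 * ha + m.2 * hb' - m.1 * hb' - m.2 * ha
  refine ⟨(e - l - m.1 * a - m.2 * b + m.1 * b + m.2 * a, m.2 * g1 + l), ⟨hl3', ?_, ?_⟩, ?_⟩
  · show m.2 * g1 + l ≤ ((N : ℤ) - 2) * (e - l - m.1 * a - m.2 * b + m.1 * b + m.2 * a)
    rw [hα]; linarith
  · show ((N : ℤ) - 2) * (e - l - m.1 * a - m.2 * b + m.1 * b + m.2 * a) * g1 ^ 2 +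
      (m.2 * g1 + l) * (g2 ^ 2 - g1 ^ 2) ≤ (N - 2) * e * (g1 * g2)
    rw [hα]
    have e1 : (m.1 * g2 + 2 * l + m.2 * g1) * g1 ^ 2 + (m.2 * g1 + l) * (g2 ^ 2 - g1 ^ 2) =
        (N - 2) * e * (g1 * g2) - (N - 2) * l := by
      linear_combination g1 * g2 * hl1' + l * hmk'
    rw [e1]
    nlinarith
  · ext
    · simp only
      apply mul_left_cancel₀ hM.ne'
      linear_combination (-g0) * hα + (m.2 * g1 + l) * hf1 - m.1 * hp1 - l * hrec1' - g1 * hl1'
    · simp only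
      apply mul_left_cancel₀ hM.ne'
      linear_combination (-g1) * hα + (m.2 * g1 + l) * hf2 - m.2 * hp2 - l * hrec2' - g2 * hl1'

/-- emptiness for quasimonomial valuations is such a system -/
theorem EmpW.sys (htw : ∀ i, 0 ≤ tw i) :
    NagSys (fun k (c : ι → ℝ) i => (k : ℝ) * c i) (fun c S => EmpW tw c S) where
  mono h hS := h.mono hS
  comap h a b c' d u v hd hS := h.comap htw a b c' d u v hd hS
  flat0 h h' := EmpW.flat0 htw h h'
  Q3 hN h := EmpW.Q3 htw hN _ _ h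
  pow k hk hS h := EmpW.pow htw k hk hS h

end

end Pool.Agent.TH183.QN
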